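import Pool.Agent.Helper56.SW.Final

/-!
# HY, TR: the integer model for all lengths and all boxes at once (copy of the proof of `stTr`)
-/

set_option autoImplicit false

namespace Pool.Agent.Helper89.HY

open Finset Matrix
open Pool.Agent.Helper56.SW

theorem hTR (c : ℕ) (hc : 1 ≤ c) (a₁ a₂ : (ZMod c)ˣ) :
    ∃ a b : ℤ, IsCoprime a (c : ℤ) ∧ IsCoprime b (c : ℤ) ∧ ∀ (r : ℕ) (H₁ H₂ : ℝ), 1 ≤ H₁ → H₁ ≤ H₂ →
      Nq (2 * r) c a₁ a₂ H₁ H₂ = N c a b r ⌊H₁⌋₊ ⌊H₂⌋₊ := by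
  classical
  have : NeZero c := ⟨by omega⟩
  have hcop : ∀ u : (ZMod c)ˣ, IsCoprime (((u : ZMod c).val : ℕ) : ℤ) (c : ℤ) := fun u =>
    Nat.isCoprime_iff_coprime.2 (ZMod.val_coe_unit_coprime u)
  have hcast : ∀ u : (ZMod c)ˣ, ((((u : ZMod c).val : ℕ) : ℤ) : ZMod c) = u := fun u => by
    push_cast
    rw [ZMod.natCast_zmod_val]
  refine ⟨(((a₁ : ZMod c).val : ℕ) : ℤ), ((((-a₂ : (ZMod c)ˣ) : ZMod c).val : ℕ) : ℤ), hcop a₁,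
    hcop (-a₂), ?_⟩
  intro r H₁ H₂ hH₁ hH₂
  set a : ℤ := (((a₁ : ZMod c).val : ℕ) : ℤ) with hadef
  set b : ℤ := ((((-a₂ : (ZMod c)ˣ) : ZMod c).val : ℕ) : ℤ) with hbdef
  have ha : (a : ZMod c) = (a₁ : ZMod c) := hcast a₁
  have hb : (b : ZMod c) = - (a₂ : ZMod c) := by rw [hbdef, hcast (-a₂)]; simp
  have hH1 : (0 : ℝ) ≤ H₁ := by linarith
  have hH2 : (0 : ℝ) ≤ H₂ := by linarith
  have hfl : ∀ (H : ℝ), 0 ≤ H → ∀ x : ℤ, |(x : ℝ)| ≤ H ↔ x ∈ I ⌊H⌋₊ := by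
    intro H hH x
    rw [mem_I', Nat.le_floor_iff hH, Nat.cast_natAbs, Int.cast_abs]
  have hcond : ∀ h : Fin (2 * r) → ℤ,
      ((∀ i : Fin (2 * r), |(h i : ℝ)| ≤ if (i : ℕ) % 2 = 0 then H₁ else H₂) ∧
      ∃ γ : ZMod c, γ ^ 2 = 1 ∧
        (List.ofFn fun i : Fin (2 * r) =>
          Tm ((if (i : ℕ) % 2 = 0 then (a₁ : ZMod c) else (a₂ : ZMod c)) * (h i : ZMod c))
            * Sm c).prod
          = γ • (1 : Matrix (Fin 2) (Fin 2) (ZMod c))) ↔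
      M_Tr_L r h ∈ (bx (I ⌊H₁⌋₊) (I ⌊H₂⌋₊) r).filter fun l => ∃ γ ∈ Γ c, Rel c a b γ l := by
    intro h
    rw [mem_filter, mem_bx, M_Tr_mem]
    have e1 : (∀ i : Fin (2 * r), |(h i : ℝ)| ≤ if (i : ℕ) % 2 = 0 then H₁ else H₂) ↔
        ∀ i : Fin (2 * r), if (i : ℕ) % 2 = 0 then h i ∈ I ⌊H₁⌋₊ else h i ∈ I ⌊H₂⌋₊ := by
      refine forall_congr' fun i => ?_
      split_ifs
      · exact hfl H₁ hH1 _
      · exact hfl H₂ hH2 _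
    have e2 : (∃ γ ∈ Γ c, Rel c a b γ (M_Tr_L r h)) ↔ ∃ γ : ZMod c, γ ^ 2 = 1 ∧
        (List.ofFn fun i : Fin (2 * r) =>
          Tm ((if (i : ℕ) % 2 = 0 then (a₁ : ZMod c) else (a₂ : ZMod c)) * (h i : ZMod c))
            * Sm c).prod
          = γ • (1 : Matrix (Fin 2) (Fin 2) (ZMod c)) := by
      simp only [M_Tr_rel_iff]
      rw [M_Tr_Gam c hc, M_Tr_prod (a₁ : ZMod c) (a₂ : ZMod c) a b ha hb r h]
      set M := (Int.castRingHom (ZMod c)).mapMatrix (E a b (M_Tr_L r h)) with hM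
      have hsq : ((-1 : ZMod c) ^ r) * ((-1 : ZMod c) ^ r) = 1 := by
        rw [← mul_pow]; simp
      constructor
      · rintro ⟨γ, hγ, h1⟩
        refine ⟨(-1) ^ r * γ, ?_, by rw [h1, smul_smul]⟩
        rw [mul_pow, hγ, mul_one, sq, hsq]
      · rintro ⟨γ, hγ, h1⟩
        refine ⟨(-1) ^ r * γ, ?_, ?_⟩
        · rw [mul_pow, hγ, mul_one, sq, hsq]
        · rw [← smul_smul, ← h1, smul_smul, hsq, one_smul]
    rw [e1, e2]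
    simp [M_Tr_len]
  unfold Nq N
  rw [← Nat.card_eq_finsetCard]
  refine Nat.card_congr (Equiv.ofBijective
    (fun h => ⟨M_Tr_L r h.1, (hcond h.1).1 h.2⟩) ⟨?_, ?_⟩)
  · intro h h' e
    exact Subtype.ext (M_Tr_inj r (Subtype.ext_iff.1 e))
  · rintro ⟨l, hl⟩
    have hl' := hl
    rw [mem_filter, mem_bx] at hl'
    obtain ⟨h, rfl⟩ := M_Tr_surj r l hl'.1.1
    exact ⟨⟨h, (hcond h).2 hl⟩, rfl⟩

end Pool.Agent.Helper89.HY
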