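import Pool.Agent.Helper89.HY.St
import Pool.Agent.Helper89.HY.M_TR
import Pool.Agent.Helper89.HX.St
import Pool.Agent.Helper89.HX.M_Fin1

/-!
# HY: the final theorem from the modules
-/

set_option autoImplicit false

noncomputable section

namespace Pool.Agent.Helper89.HY

open Pool.Agent.Helper56.SW (Nq N)
open Pool.Agent.Helper89.HX (StFinA fin1)

private lemma fl (H : ℝ) (hH : 1 ≤ H) : 1 ≤ ⌊H⌋₊ ∧ (⌊H⌋₊ : ℝ) ≤ H ∧ H / 2 ≤ (⌊H⌋₊ : ℝ) := by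
  have h0 : 1 ≤ ⌊H⌋₊ := Nat.le_floor (by simpa using hH)
  have h1 : H < ⌊H⌋₊ + 1 := Nat.lt_floor_add_one H
  have h2 : (1 : ℝ) ≤ ⌊H⌋₊ := by exact_mod_cast h0
  exact ⟨h0, Nat.floor_le (by linarith), by linarith⟩

/-- from six letters to `2 r` letters -/
private lemma tf (hHM : StHM) (r : ℕ) (hr : 3 ≤ r) : ∃ C : ℝ, 0 < C ∧
    ∀ (c : ℕ) (a₁ a₂ : (ZMod c)ˣ) (H₁ H₂ D t : ℝ), c.Prime → 1 ≤ H₁ → H₁ ≤ H₂ → 1 ≤ D → 0 ≤ t →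
      (Nq 6 c a₁ a₂ (2 * (⌊H₁⌋₊ : ℝ)) (2 * (⌊H₂⌋₊ : ℝ)) : ℝ) ≤
        D * (((⌊H₁⌋₊ : ℝ) * ⌊H₂⌋₊) ^ 3 / (c : ℝ) ^ 3 * (1 + c * t)) →
      (Nq (2 * r) c a₁ a₂ H₁ H₂ : ℝ) ≤
        C * D ^ r * (((⌊H₁⌋₊ : ℝ) * ⌊H₂⌋₊) ^ r / (c : ℝ) ^ 3 * (1 + c * t ^ ((r : ℝ) / 3))) := by
  obtain ⟨C, hC, h⟩ := hHM r hr
  refine ⟨C, hC, ?_⟩
  intro c a₁ a₂ H₁ H₂ D t hc h1 h12 hD ht h6
  obtain ⟨a, b, ha, hb, hab⟩ := hTR c hc.one_lt.le a₁ a₂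
  obtain ⟨hA1, hA2, hA3⟩ := fl H₁ h1
  have hAB : ⌊H₁⌋₊ ≤ ⌊H₂⌋₊ := Nat.floor_le_floor h12
  rw [hab r H₁ H₂ h1 h12]
  refine h c a b ⌊H₁⌋₊ ⌊H₂⌋₊ D t hc ha hb hA1 hAB hD ht ?_
  have h2 : (1 : ℝ) ≤ ⌊H₁⌋₊ := by exact_mod_cast hA1
  have h3 : (⌊H₁⌋₊ : ℝ) ≤ ⌊H₂⌋₊ := by exact_mod_cast hAB
  have h4 := hab 3 (2 * (⌊H₁⌋₊ : ℝ)) (2 * (⌊H₂⌋₊ : ℝ)) (by linarith) (by linarith)
  have e1 : ⌊2 * (⌊H₁⌋₊ : ℝ)⌋₊ = 2 * ⌊H₁⌋₊ := by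
    have : (2 * (⌊H₁⌋₊ : ℝ)) = ((2 * ⌊H₁⌋₊ : ℕ) : ℝ) := by push_cast; ring
    rw [this, Nat.floor_natCast]
  have e2 : ⌊2 * (⌊H₂⌋₊ : ℝ)⌋₊ = 2 * ⌊H₂⌋₊ := by
    have : (2 * (⌊H₂⌋₊ : ℝ)) = ((2 * ⌊H₂⌋₊ : ℕ) : ℝ) := by push_cast; ring
    rw [this, Nat.floor_natCast]
  rw [e1, e2] at h4
  rw [← h4]
  exact h6

private lemma rpA (r : ℕ) (x y : ℝ) (hx : 0 < x) (hy : 0 < y) :
    (x ^ 4 / y ^ 3) ^ ((r : ℝ) / 3) = x ^ (4 * (r : ℝ) / 3) / y ^ r := by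
  rw [Real.div_rpow (by positivity) (by positivity), ← Real.rpow_natCast x 4, ← Real.rpow_natCast y 3,
    ← Real.rpow_mul hx.le, ← Real.rpow_mul hy.le]
  congr 1
  · congr 1
    push_cast
    ring
  · rw [← Real.rpow_natCast y r]
    congr 1
    push_cast
    ring

private lemma rpB (r : ℕ) (x : ℝ) (hx : 0 < x) :
    x ^ ((4 * (r : ℝ) - 6) / 3) = x ^ (4 * (r : ℝ) / 3) / x ^ 2 := by
  have e : (4 * (r : ℝ) - 6) / 3 = 4 * (r : ℝ) / 3 - ((2 : ℕ) : ℝ) := by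
    push_cast
    ring
  rw [e, Real.rpow_sub hx, Real.rpow_natCast]

/-- large boxes -/
private lemma pI (hMN : StMN) (hHM : StHM) (r : ℕ) (hr : 3 ≤ r) (K : ℝ) (hK : 1 ≤ K) : ∃ C : ℝ, 0 < C ∧
    ∀ (c : ℕ) (a₁ a₂ : (ZMod c)ˣ) (H₁ H₂ : ℝ), c.Prime → 1 ≤ H₁ → H₁ ≤ H₂ → H₂ ≤ K * c →
      (Nq (2 * r) c a₁ a₂ H₁ H₂ : ℝ) ≤
        C * ((H₁ * H₂) ^ r / (c : ℝ) ^ 3 + (c : ℝ) ^ ((4 * (r : ℝ) - 6) / 3)) := by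
  obtain ⟨C₀, hC₀, h₀⟩ := hMN (2 * K) (by linarith)
  obtain ⟨C₁, hC₁, h₁⟩ := tf hHM r hr
  refine ⟨C₁ * (64 * C₀ + 1) ^ r, by positivity, ?_⟩
  intro c a₁ a₂ H₁ H₂ hc hH1 h12 hK2
  obtain ⟨hA1, hA2, hA3⟩ := fl H₁ hH1
  obtain ⟨hB1, hB2, hB3⟩ := fl H₂ (hH1.trans h12)
  have hAB : (⌊H₁⌋₊ : ℝ) ≤ ⌊H₂⌋₊ := by exact_mod_cast Nat.floor_le_floor h12
  have hA1' : (1 : ℝ) ≤ ⌊H₁⌋₊ := by exact_mod_cast hA1
  have hc0 : (0 : ℝ) < c := by exact_mod_cast hc.pos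
  have g := h₀ c a₁ a₂ (2 * (⌊H₁⌋₊ : ℝ)) (2 * (⌊H₂⌋₊ : ℝ)) hc (by linarith) (by linarith) (by linarith)
  have f := h₁ c a₁ a₂ H₁ H₂ (64 * C₀ + 1) ((c : ℝ) ^ 4 / ((⌊H₁⌋₊ : ℝ) * ⌊H₂⌋₊) ^ 3) hc hH1 h12
    (by linarith) (by positivity)
  clear h₁ h₀
  generalize (⌊H₁⌋₊ : ℝ) = A at *
  generalize (⌊H₂⌋₊ : ℝ) = B at *
  have hA0 : 0 < A := by linarith
  have hB0 : 0 < B := by linarith
  have hX : 0 ≤ (A * B) ^ 3 / (c : ℝ) ^ 3 := by positivity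
  have hY : 0 ≤ (c : ℝ) ^ 2 := by positivity
  have e1 : (A * B) ^ 3 / (c : ℝ) ^ 3 * (1 + c * ((c : ℝ) ^ 4 / (A * B) ^ 3)) =
      (A * B) ^ 3 / (c : ℝ) ^ 3 + (c : ℝ) ^ 2 := by
    field_simp
  have e2 : (2 * A * (2 * B)) ^ 3 / (c : ℝ) ^ 3 = 64 * ((A * B) ^ 3 / (c : ℝ) ^ 3) := by ring
  rw [e1] at f
  rw [e2] at g
  have f2 := f (g.trans (by nlinarith))
  refine f2.trans ?_
  refine mul_le_mul_of_nonneg_left ?_ (by positivity)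
  rw [rpA r _ _ hc0 (by positivity), rpB r _ hc0]
  have e3 : (A * B) ^ r / (c : ℝ) ^ 3 * (1 + c * ((c : ℝ) ^ (4 * (r : ℝ) / 3) / (A * B) ^ r)) =
      (A * B) ^ r / (c : ℝ) ^ 3 + (c : ℝ) ^ (4 * (r : ℝ) / 3) / (c : ℝ) ^ 2 := by
    have : (A * B) ^ r ≠ 0 := by positivity
    generalize (c : ℝ) ^ (4 * (r : ℝ) / 3) = z
    generalize (A * B) ^ r = y at *
    field_simp
  rw [e3]
  have e4 : (A * B) ^ r ≤ (H₁ * H₂) ^ r :=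
    pow_le_pow_left₀ (by positivity) (mul_le_mul hA2 hB2 hB0.le (by linarith)) _
  have e5 : (A * B) ^ r / (c : ℝ) ^ 3 ≤ (H₁ * H₂) ^ r / (c : ℝ) ^ 3 :=
    div_le_div_of_nonneg_right e4 (by positivity)
  linarith

/-- the parameter of the second bound -/
def Tt (c : ℕ) (H₁ H₂ : ℝ) : ℝ := (c : ℝ) ^ 2 / (H₁ ^ 3 * H₂) + √(H₂ / H₁) / √(c : ℝ)

private lemma pII (hF : StFinA) (hHM : StHM) (r : ℕ) (hr : 3 ≤ r) (K ε : ℝ) (hK : 1 ≤ K) (hε : 0 < ε) :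
    ∃ C : ℝ, 0 < C ∧
    ∀ (c : ℕ) (a₁ a₂ : (ZMod c)ˣ) (H₁ H₂ : ℝ), c.Prime → 1 ≤ H₁ → H₁ ≤ H₂ → H₂ ≤ K * c →
      (Nq (2 * r) c a₁ a₂ H₁ H₂ : ℝ) ≤
        C * (c : ℝ) ^ ε * ((H₁ * H₂) ^ r / (c : ℝ) ^ 3 * (1 + c * Tt c H₁ H₂ ^ ((r : ℝ) / 3))) := by
  have hr0 : (0 : ℝ) < r := by exact_mod_cast (by omega : 0 < r)
  obtain ⟨C₀, hC₀, h₀⟩ := hF (2 * K) (ε / r) (by linarith) (by positivity)
  obtain ⟨C₁, hC₁, h₁⟩ := tf hHM r hr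
  refine ⟨C₁ * (64 * C₀ + 1) ^ r * 16 ^ r, by positivity, ?_⟩
  intro c a₁ a₂ H₁ H₂ hc hH1 h12 hK2
  obtain ⟨hA1, hA2, hA3⟩ := fl H₁ hH1
  obtain ⟨hB1, hB2, hB3⟩ := fl H₂ (hH1.trans h12)
  have hAB : (⌊H₁⌋₊ : ℝ) ≤ ⌊H₂⌋₊ := by exact_mod_cast Nat.floor_le_floor h12
  have hA1' : (1 : ℝ) ≤ ⌊H₁⌋₊ := by exact_mod_cast hA1
  have hc0 : (0 : ℝ) < c := by exact_mod_cast hc.pos
  have hc1 : (1 : ℝ) ≤ c := by exact_mod_cast hc.one_lt.le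
  have hw1 : (1 : ℝ) ≤ (c : ℝ) ^ (ε / r) := Real.one_le_rpow hc1 (by positivity)
  have hwr : ((c : ℝ) ^ (ε / r)) ^ r = (c : ℝ) ^ ε := by
    rw [← Real.rpow_natCast, ← Real.rpow_mul hc0.le]
    congr 1
    field_simp
  have g := h₀ c a₁ a₂ (2 * (⌊H₁⌋₊ : ℝ)) (2 * (⌊H₂⌋₊ : ℝ)) hc (by linarith) (by linarith) (by linarith)
  have f := h₁ c a₁ a₂ H₁ H₂ ((64 * C₀ + 1) * (c : ℝ) ^ (ε / r)) (Tt c (⌊H₁⌋₊ : ℝ) (⌊H₂⌋₊ : ℝ)) hc hH1 h12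
    (by nlinarith) (by unfold Tt; positivity)
  clear h₁ h₀
  generalize (⌊H₁⌋₊ : ℝ) = A at *
  generalize (⌊H₂⌋₊ : ℝ) = B at *
  have hA0 : 0 < A := by linarith
  have hB0 : 0 < B := by linarith
  have hH10 : 0 < H₁ := by linarith
  have hH20 : 0 < H₂ := by linarith
  have hsc : 0 < √(c : ℝ) := Real.sqrt_pos.2 hc0
  have hsc2 : √(c : ℝ) * √(c : ℝ) = c := Real.mul_self_sqrt hc0.le
  have e1 : (A * B) ^ 3 / (c : ℝ) ^ 3 * (1 + c * Tt c A B) =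
      (A * B) ^ 3 / (c : ℝ) ^ 3 + B ^ 2 + √(B / A) * (√(c : ℝ) * ((A * B) ^ 3 / (c : ℝ) ^ 3)) := by
    have e10 : (c : ℝ) / √(c : ℝ) = √(c : ℝ) := by
      rw [div_eq_iff hsc.ne', hsc2]
    have e11 : (A * B) ^ 3 / (c : ℝ) ^ 3 * (c * ((c : ℝ) ^ 2 / (A ^ 3 * B))) = B ^ 2 := by
      field_simp
    have e12 : (c : ℝ) * (√(B / A) / √(c : ℝ)) = √(B / A) * √(c : ℝ) := by
      rw [mul_div_left_comm, e10]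
    unfold Tt
    rw [mul_add (c : ℝ), e12]
    linear_combination e11
  have e2 : (2 * B) ^ 2 + √(2 * B / (2 * A)) * (√(c : ℝ) * ((2 * A * (2 * B)) ^ 3 / (c : ℝ) ^ 3)) =
      4 * B ^ 2 + 64 * (√(B / A) * (√(c : ℝ) * ((A * B) ^ 3 / (c : ℝ) ^ 3))) := by
    rw [mul_div_mul_left _ _ (two_ne_zero' ℝ)]
    ring
  rw [e1] at f
  rw [e2] at g
  have hX : 0 ≤ (A * B) ^ 3 / (c : ℝ) ^ 3 := by positivity
  have hY : 0 ≤ B ^ 2 := by positivity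
  have hZ : 0 ≤ √(B / A) * (√(c : ℝ) * ((A * B) ^ 3 / (c : ℝ) ^ 3)) := by positivity
  have f2 := f (g.trans (by
    have k1 : 4 * B ^ 2 + 64 * (√(B / A) * (√(c : ℝ) * ((A * B) ^ 3 / (c : ℝ) ^ 3))) ≤
        64 * ((A * B) ^ 3 / (c : ℝ) ^ 3 + B ^ 2 + √(B / A) * (√(c : ℝ) * ((A * B) ^ 3 / (c : ℝ) ^ 3))) := by
      linarith
    have k2 := mul_le_mul_of_nonneg_left k1 (by positivity : 0 ≤ C₀ * (c : ℝ) ^ (ε / r))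
    refine k2.trans ?_
    have k3 : 0 ≤ (c : ℝ) ^ (ε / r) *
      ((A * B) ^ 3 / (c : ℝ) ^ 3 + B ^ 2 + √(B / A) * (√(c : ℝ) * ((A * B) ^ 3 / (c : ℝ) ^ 3))) := by
      positivity
    linarith))
  refine f2.trans ?_
  rw [mul_pow, hwr]
  have hT0 : 0 ≤ Tt c H₁ H₂ := by unfold Tt; positivity
  have hT1 : 0 ≤ Tt c A B := by unfold Tt; positivity
  have t1 : Tt c A B ≤ 16 * Tt c H₁ H₂ := by
    unfold Tt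
    have k1 : H₁ ^ 3 * H₂ ≤ 16 * (A ^ 3 * B) := by
      have := mul_le_mul (pow_le_pow_left₀ (by positivity) hA3 3) hB3 (by positivity) (by positivity)
      nlinarith
    have k2 : (c : ℝ) ^ 2 / (A ^ 3 * B) ≤ 16 * ((c : ℝ) ^ 2 / (H₁ ^ 3 * H₂)) := by
      rw [← mul_div_assoc, div_le_div_iff₀ (by positivity) (by positivity)]
      have := mul_le_mul_of_nonneg_left k1 (by positivity : (0 : ℝ) ≤ (c : ℝ) ^ 2)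
      linarith
    have k3 : B / A ≤ 16 ^ 2 * (H₂ / H₁) := by
      rw [← mul_div_assoc, div_le_div_iff₀ hA0 hH10]
      nlinarith [mul_le_mul hB2 hA3 (by positivity) hH20.le, mul_pos hH10 hH20, mul_pos hA0 hH20]
    have k4 : √(B / A) ≤ 16 * √(H₂ / H₁) := by
      have := Real.sqrt_le_sqrt k3
      rwa [Real.sqrt_mul (by positivity), Real.sqrt_sq (by norm_num)] at this
    have k5 : √(B / A) / √(c : ℝ) ≤ 16 * (√(H₂ / H₁) / √(c : ℝ)) := by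
      rw [← mul_div_assoc]
      exact div_le_div_of_nonneg_right k4 hsc.le
    linarith
  have t2 : Tt c A B ^ ((r : ℝ) / 3) ≤ 16 ^ r * Tt c H₁ H₂ ^ ((r : ℝ) / 3) := by
    calc Tt c A B ^ ((r : ℝ) / 3) ≤ (16 * Tt c H₁ H₂) ^ ((r : ℝ) / 3) :=
          Real.rpow_le_rpow hT1 t1 (by positivity)
      _ = 16 ^ ((r : ℝ) / 3) * Tt c H₁ H₂ ^ ((r : ℝ) / 3) := Real.mul_rpow (by norm_num) hT0
      _ ≤ 16 ^ (r : ℝ) * Tt c H₁ H₂ ^ ((r : ℝ) / 3) := by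
          refine mul_le_mul_of_nonneg_right ?_ (Real.rpow_nonneg hT0 _)
          exact Real.rpow_le_rpow_of_exponent_le (by norm_num) (by linarith)
      _ = _ := by rw [Real.rpow_natCast]
  have hU : 0 ≤ Tt c H₁ H₂ ^ ((r : ℝ) / 3) := Real.rpow_nonneg hT0 _
  have h16 : (1 : ℝ) ≤ 16 ^ r := one_le_pow₀ (by norm_num)
  have e4 : (A * B) ^ r / (c : ℝ) ^ 3 ≤ (H₁ * H₂) ^ r / (c : ℝ) ^ 3 :=
    div_le_div_of_nonneg_right (pow_le_pow_left₀ (by positivity) (mul_le_mul hA2 hB2 hB0.le hH10.le) _)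
      (by positivity)
  have e5 : 1 + c * Tt c A B ^ ((r : ℝ) / 3) ≤ 16 ^ r * (1 + c * Tt c H₁ H₂ ^ ((r : ℝ) / 3)) := by
    have := mul_le_mul_of_nonneg_left t2 hc0.le
    nlinarith
  have e6 := mul_le_mul e4 e5 (by have := Real.rpow_nonneg hT1 ((r : ℝ) / 3); positivity) (by positivity)
  calc _ ≤ C₁ * ((64 * C₀ + 1) ^ r * (c : ℝ) ^ ε) * ((H₁ * H₂) ^ r / (c : ℝ) ^ 3 *
        (16 ^ r * (1 + c * Tt c H₁ H₂ ^ ((r : ℝ) / 3)))) := mul_le_mul_of_nonneg_left e6 (by positivity)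
    _ = _ := by ring

/-- the range in which Q1 follows -/
def Rg (r c : ℕ) (H₁ H₂ : ℝ) : Prop :=
  (c : ℝ) ^ (4 * r + 3) ≤ (H₁ * H₂) ^ (3 * r) ∨
  ((c : ℝ) ^ (2 * r + 3) ≤ (H₁ ^ 3 * H₂) ^ r ∧ (c : ℝ) ^ 6 * H₂ ^ r ≤ (c * H₁) ^ r) ∨
  (r = 3 ∧ (H₁ ^ 5 * H₂ ^ 3 ≤ (c : ℝ) ^ 5 ∨ H₁ ^ 7 ≤ (c : ℝ) ^ 4))

private lemma cb (x y : ℝ) (n : ℕ) (hx : 0 ≤ x) (hy : 0 ≤ y) (h : x ^ n ≤ y ^ 3) : x ^ ((n : ℝ) / 3) ≤ y := by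
  have h1 : x ^ ((n : ℝ) / 3) = (x ^ n) ^ ((1 : ℝ) / 3) := by
    rw [← Real.rpow_natCast x n, ← Real.rpow_mul hx]
    congr 1
    ring
  have h2 : y = (y ^ 3) ^ ((1 : ℝ) / 3) := by
    rw [← Real.rpow_natCast y 3, ← Real.rpow_mul hy]
    norm_num
  rw [h1, h2]
  exact Real.rpow_le_rpow (by positivity) h (by norm_num)

private lemma pT (r c : ℕ) (hr : 3 ≤ r) (hc : 1 ≤ c) (H₁ H₂ : ℝ) (h1 : 1 ≤ H₁) (h12 : H₁ ≤ H₂)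
    (ha : (c : ℝ) ^ (2 * r + 3) ≤ (H₁ ^ 3 * H₂) ^ r) (hb : (c : ℝ) ^ 6 * H₂ ^ r ≤ (c * H₁) ^ r) :
    c * Tt c H₁ H₂ ^ ((r : ℝ) / 3) ≤ 2 ^ (r + 1) := by
  have hc0 : (0 : ℝ) < c := by exact_mod_cast hc
  have hH10 : 0 < H₁ := by linarith
  have hH20 : 0 < H₂ := by linarith
  set T₁ : ℝ := (c : ℝ) ^ 2 / (H₁ ^ 3 * H₂) with hT1
  set T₂ : ℝ := √(H₂ / H₁) / √(c : ℝ) with hT2
  have p1 : 0 ≤ T₁ := by positivity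
  have p2 : 0 ≤ T₂ := by positivity
  have q1 : T₁ ^ r ≤ 1 / (c : ℝ) ^ 3 := by
    rw [hT1, div_pow, div_le_div_iff₀ (by positivity) (by positivity), one_mul]
    calc ((c : ℝ) ^ 2) ^ r * (c : ℝ) ^ 3 = (c : ℝ) ^ (2 * r + 3) := by rw [← pow_mul, ← pow_add]
      _ ≤ _ := ha
  have q2 : T₂ ^ r ≤ 1 / (c : ℝ) ^ 3 := by
    have k1 : T₂ ^ 2 = H₂ / (c * H₁) := by
      rw [hT2, div_pow, Real.sq_sqrt (by positivity), Real.sq_sqrt hc0.le]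
      field_simp
    have k2 : (T₂ ^ r) ^ 2 ≤ (1 / (c : ℝ) ^ 3) ^ 2 := by
      rw [← pow_mul, mul_comm, pow_mul, k1, div_pow, div_pow, one_pow,
        div_le_div_iff₀ (by positivity) (by positivity), one_mul]
      calc H₂ ^ r * ((c : ℝ) ^ 3) ^ 2 = (c : ℝ) ^ 6 * H₂ ^ r := by ring
        _ ≤ _ := hb
    exact le_of_sq_le_sq k2 (by positivity)
  have q3 : (T₁ + T₂) ^ r ≤ (2 ^ (r + 1) / (c : ℝ)) ^ 3 := by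
    have k1 : T₁ + T₂ ≤ 2 * max T₁ T₂ := by
      have := le_max_left T₁ T₂
      have := le_max_right T₁ T₂
      linarith
    have k2 : (T₁ + T₂) ^ r ≤ (2 * max T₁ T₂) ^ r := pow_le_pow_left₀ (by positivity) k1 _
    have k3 : max T₁ T₂ ^ r ≤ 1 / (c : ℝ) ^ 3 := by
      rcases max_choice T₁ T₂ with h | h <;> rw [h] <;> assumption
    have k4 : (2 : ℝ) ^ r ≤ (2 ^ (r + 1)) ^ 3 := by
      rw [← pow_mul]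
      exact pow_le_pow_right₀ (by norm_num) (by omega)
    calc (T₁ + T₂) ^ r ≤ (2 * max T₁ T₂) ^ r := k2
      _ = 2 ^ r * max T₁ T₂ ^ r := mul_pow _ _ _
      _ ≤ (2 ^ (r + 1)) ^ 3 * (1 / (c : ℝ) ^ 3) := mul_le_mul k4 k3 (by positivity) (by positivity)
      _ = _ := by rw [div_pow]; ring
  have q4 := cb (T₁ + T₂) (2 ^ (r + 1) / (c : ℝ)) r (by positivity) (by positivity) q3
  unfold Tt
  calc (c : ℝ) * (T₁ + T₂) ^ ((r : ℝ) / 3) ≤ c * (2 ^ (r + 1) / (c : ℝ)) :=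
        mul_le_mul_of_nonneg_left q4 hc0.le
    _ = _ := by field_simp

/-- the final theorem -/
theorem fin3 (hMN : StMN) (hHM : StHM) (hF : StFinA) (r : ℕ) (hr : 3 ≤ r) (K ε : ℝ) (hK : 1 ≤ K)
    (hε : 0 < ε) : ∃ C : ℝ, 0 < C ∧
    ∀ (c : ℕ) (a₁ a₂ : (ZMod c)ˣ) (H₁ H₂ : ℝ), c.Prime → 1 ≤ H₁ → H₁ ≤ H₂ → H₂ ≤ K * c →
      (Nq (2 * r) c a₁ a₂ H₁ H₂ : ℝ) ≤
        C * ((H₁ * H₂) ^ r / (c : ℝ) ^ 3 + (c : ℝ) ^ ((4 * (r : ℝ) - 6) / 3)) ∧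
      (Nq (2 * r) c a₁ a₂ H₁ H₂ : ℝ) ≤
        C * (c : ℝ) ^ ε * ((H₁ * H₂) ^ r / (c : ℝ) ^ 3 * (1 + c * Tt c H₁ H₂ ^ ((r : ℝ) / 3))) ∧
      (Rg r c H₁ H₂ → (Nq (2 * r) c a₁ a₂ H₁ H₂ : ℝ) ≤ C * (c : ℝ) ^ ε *
        (H₂ ^ (r - 1) + (H₁ * H₂) ^ r / (c : ℝ) ^ 3)) := by
  obtain ⟨C₁, hC₁, h₁⟩ := pI hMN hHM r hr K hK
  obtain ⟨C₂, hC₂, h₂⟩ := pII hF hHM r hr K ε hK hε
  obtain ⟨C₃, hC₃, h₃⟩ := fin1 hF K ε hK hε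
  refine ⟨2 * C₁ + C₂ * (1 + 2 ^ (r + 1)) + C₃, by positivity, ?_⟩
  intro c a₁ a₂ H₁ H₂ hc hH1 h12 hK2
  have hc1 : (1 : ℝ) ≤ c := by exact_mod_cast hc.one_lt.le
  have hc0 : (0 : ℝ) < c := by linarith
  have hH10 : 0 < H₁ := by linarith
  have hH20 : 0 < H₂ := by linarith
  have g₁ := h₁ c a₁ a₂ H₁ H₂ hc hH1 h12 hK2
  have g₂ := h₂ c a₁ a₂ H₁ H₂ hc hH1 h12 hK2
  have g₃ := h₃ c a₁ a₂ H₁ H₂ hc hH1 h12 hK2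
  have hT0 : 0 ≤ Tt c H₁ H₂ := by unfold Tt; positivity
  have hU : 0 ≤ Tt c H₁ H₂ ^ ((r : ℝ) / 3) := Real.rpow_nonneg hT0 _
  have hw : (1 : ℝ) ≤ (c : ℝ) ^ ε := Real.one_le_rpow hc1 hε.le
  have h2r : (0 : ℝ) ≤ 2 ^ (r + 1) := by positivity
  have hCC : C₂ ≤ C₂ * (1 + 2 ^ (r + 1)) := by nlinarith
  refine ⟨g₁.trans ?_, g₂.trans ?_, fun hR => ?_⟩
  · exact mul_le_mul_of_nonneg_right (by nlinarith) (by positivity)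
  · exact mul_le_mul_of_nonneg_right (mul_le_mul_of_nonneg_right (by nlinarith) (by positivity))
      (by positivity)
  · have hZ : 0 ≤ H₂ ^ (r - 1) + (H₁ * H₂) ^ r / (c : ℝ) ^ 3 := by positivity
    have hX : 0 ≤ (H₁ * H₂) ^ r / (c : ℝ) ^ 3 := by positivity
    have hZX : (H₁ * H₂) ^ r / (c : ℝ) ^ 3 ≤ H₂ ^ (r - 1) + (H₁ * H₂) ^ r / (c : ℝ) ^ 3 := by
      have : 0 ≤ H₂ ^ (r - 1) := by positivity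
      linarith
    rcases hR with hR | ⟨ha, hb⟩ | ⟨h3, hR⟩
    · have k1 : (c : ℝ) ^ ((4 * (r : ℝ) - 6) / 3) ≤ (H₁ * H₂) ^ r / (c : ℝ) ^ 3 := by
        have k2 := cb (c : ℝ) ((H₁ * H₂) ^ r) (4 * r + 3) hc0.le (by positivity)
          (by rw [← pow_mul, mul_comm r 3]; exact hR)
        have k3 : (c : ℝ) ^ ((4 * (r : ℝ) - 6) / 3) = (c : ℝ) ^ (((4 * r + 3 : ℕ) : ℝ) / 3) / (c : ℝ) ^ 3 := by
          have e : (4 * (r : ℝ) - 6) / 3 = ((4 * r + 3 : ℕ) : ℝ) / 3 - ((3 : ℕ) : ℝ) := by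
            push_cast
            ring
          rw [e, Real.rpow_sub hc0, Real.rpow_natCast]
        rw [k3]
        exact div_le_div_of_nonneg_right k2 (by positivity)
      calc (Nq (2 * r) c a₁ a₂ H₁ H₂ : ℝ) ≤ C₁ * (2 * ((H₁ * H₂) ^ r / (c : ℝ) ^ 3)) :=
            g₁.trans (mul_le_mul_of_nonneg_left (by linarith) hC₁.le)
        _ = 2 * C₁ * 1 * ((H₁ * H₂) ^ r / (c : ℝ) ^ 3) := by ring
        _ ≤ _ := by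
            refine mul_le_mul (mul_le_mul ?_ hw (by norm_num) (by positivity)) hZX hX (by positivity)
            nlinarith
    · have k1 := pT r c hr hc.one_lt.le H₁ H₂ hH1 h12 ha hb
      calc (Nq (2 * r) c a₁ a₂ H₁ H₂ : ℝ) ≤ C₂ * (c : ℝ) ^ ε * ((H₁ * H₂) ^ r / (c : ℝ) ^ 3 *
            (1 + 2 ^ (r + 1))) := g₂.trans (mul_le_mul_of_nonneg_left
              (mul_le_mul_of_nonneg_left (by linarith) hX) (by positivity))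
        _ = C₂ * (1 + 2 ^ (r + 1)) * (c : ℝ) ^ ε * ((H₁ * H₂) ^ r / (c : ℝ) ^ 3) := by ring
        _ ≤ _ := by
            refine mul_le_mul (mul_le_mul_of_nonneg_right ?_ (by positivity)) hZX hX (by positivity)
            nlinarith
    · subst h3
      refine (g₃.2 hR).trans ?_
      refine mul_le_mul_of_nonneg_right (mul_le_mul_of_nonneg_right ?_ (by positivity)) hZ
      nlinarith

end Pool.Agent.Helper89.HY
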