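import Pool.Agent.Helper89.HY.M_MN
import Pool.Agent.Helper89.HY.M_FN
import Pool.Agent.Helper89.HX.Final
import Pool.Agent.Helper97.HY.M_KM
import Pool.Agent.Helper83.HY.M_PAR
import Pool.Agent.Helper22.HY.M_WB
import Pool.Agent.Helper47.HY.M_POS
import Pool.Agent.Helper31.HY.M_WT
import Pool.Agent.Helper69.HY.M_CT
import Pool.Agent.Helper56.HY.M_HM

/-!
# HY: assembly
-/

set_option autoImplicit false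

namespace Pool.Agent.Helper89.HY

open Pool.Agent.Helper56.SW (Nq)

theorem fnMN : StMN :=
  hMN (Pool.Agent.Helper22.HY.hWB Pool.Agent.Helper97.HY.hKM Pool.Agent.Helper83.HY.hPAR)
    Pool.Agent.Helper47.HY.hPOS Pool.Agent.Helper31.HY.hWT Pool.Agent.Helper69.HY.hCT

theorem fin4 (r : ℕ) (hr : 3 ≤ r) (K ε : ℝ) (hK : 1 ≤ K)
    (hε : 0 < ε) : ∃ C : ℝ, 0 < C ∧
    ∀ (c : ℕ) (a₁ a₂ : (ZMod c)ˣ) (H₁ H₂ : ℝ), c.Prime → 1 ≤ H₁ → H₁ ≤ H₂ → H₂ ≤ K * c →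
      (Nq (2 * r) c a₁ a₂ H₁ H₂ : ℝ) ≤
        C * ((H₁ * H₂) ^ r / (c : ℝ) ^ 3 + (c : ℝ) ^ ((4 * (r : ℝ) - 6) / 3)) ∧
      (Nq (2 * r) c a₁ a₂ H₁ H₂ : ℝ) ≤
        C * (c : ℝ) ^ ε * ((H₁ * H₂) ^ r / (c : ℝ) ^ 3 * (1 + c * Tt c H₁ H₂ ^ ((r : ℝ) / 3))) ∧
      (Rg r c H₁ H₂ → (Nq (2 * r) c a₁ a₂ H₁ H₂ : ℝ) ≤ C * (c : ℝ) ^ ε *
        (H₂ ^ (r - 1) + (H₁ * H₂) ^ r / (c : ℝ) ^ 3)) :=
  fin3 fnMN Pool.Agent.Helper56.HY.hHM Pool.Agent.Helper89.HX.finA r hr K ε hK hε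

end Pool.Agent.Helper89.HY
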