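import Pool.Agent.Helper89.HY.St2
import Pool.Agent.Helper89.HY.M_TR
import Pool.Agent.Helper89.HY.M_TR2

/-!
# HY2, MNN: six letters modulo a squarefree number, and longer words
-/

set_option autoImplicit false

noncomputable section

namespace Pool.Agent.Helper89.HY

open Finset
open Pool.Agent.Helper56.SW (Nq N τ fn_div)

private lemma tau1 (n : ℕ) (hn : 1 ≤ n) : (1 : ℝ) ≤ τ n := by
  unfold Pool.Agent.Helper56.SW.τ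
  have : 1 ≤ n.divisors.card := Finset.card_pos.2 ⟨1, Nat.one_mem_divisors.2 (by omega)⟩
  exact_mod_cast this

private lemma tau_mono (e n : ℕ) (h : e ∣ n) (hn : 1 ≤ n) : τ e ≤ τ n := by
  unfold Pool.Agent.Helper56.SW.τ
  have := Finset.card_le_card (Nat.divisors_subset_of_dvd (by omega : n ≠ 0) h)
  exact_mod_cast this

open Classical in
private lemma one2 (hB : StBDN) (hT : StWTN) (hP : StPON) (hS : StSMN) (n : ℕ) [NeZero n] (hn : Squarefree n)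
    (γ : ZMod n) (hγ : γ ^ 2 = 1)
    (K : ℝ) (hK : 1 ≤ K) (a₁ a₂ : (ZMod n)ˣ) (A B : ℕ) (hA1 : 1 ≤ A) (hAB : A ≤ B)
    (hBK : (B : ℝ) ≤ K * n) :
    ∑ x ∈ Vn n γ, ∏ i : Fin 6, (nb n (if (i : ℕ) % 2 = 0 then (a₁ : ZMod n) else (a₂ : ZMod n))
      (if (i : ℕ) % 2 = 0 then A else B) (x i) : ℝ) ≤
      64 * (τ n ^ 5 * (64 * τ n * (729 * (((A : ℝ) * B) ^ 3 / (n : ℝ) ^ 3) + (3 * K) ^ 3 * (n : ℝ) ^ 2))) := by
  have hn0 : (0 : ℝ) < n := by exact_mod_cast Nat.pos_of_ne_zero (NeZero.ne n)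
  have hτ : (1 : ℝ) ≤ τ n := tau1 n (Nat.pos_of_ne_zero (NeZero.ne n))
  set u : Fin 6 → (ZMod n)ˣ := fun i => if (i : ℕ) % 2 = 0 then a₁ else a₂ with hu
  set L : Fin 6 → ℕ := fun i => if (i : ℕ) % 2 = 0 then A else B with hL
  have t := fun i => hT n (u i) (L i)
  have h1 := hP n (Vn n γ) (fun i => cw n (u i) (2 * L i + 1)) (fun i => cn n (u i) (2 * L i + 1))
    (τ n ^ 5 * (n : ℝ) ^ 2) (by positivity) (fun i m => (t i).1 m) (fun i x => (t i).2.1 x)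
    (fun m => hB n hn ZMod.stdAddChar (ZMod.isPrimitive_stdAddChar n) γ hγ m)
  have e0 : ∀ (i : Fin 6) (x : ZMod n), nb n (if (i : ℕ) % 2 = 0 then (a₁ : ZMod n) else (a₂ : ZMod n))
      (if (i : ℕ) % 2 = 0 then A else B) x = nb n (u i) (L i) x := by
    intro i x
    rw [hu, hL]
    dsimp only
    split_ifs <;> rfl
  have h2 : ∑ x ∈ Vn n γ, ∏ i : Fin 6, (nb n (if (i : ℕ) % 2 = 0 then (a₁ : ZMod n) else (a₂ : ZMod n))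
      (if (i : ℕ) % 2 = 0 then A else B) (x i) : ℝ) ≤
      64 * ∑ x ∈ Vn n γ, ∏ i : Fin 6, cw n (u i) (2 * L i + 1) (x i) := by
    rw [mul_sum]
    refine sum_le_sum fun x _ => ?_
    calc _ = ∏ i : Fin 6, (nb n (u i) (L i) (x i) : ℝ) := prod_congr rfl fun i _ => by rw [e0]
      _ ≤ ∏ i : Fin 6, (2 * cw n (u i) (2 * L i + 1) (x i)) :=
          prod_le_prod (fun i _ => Nat.cast_nonneg _) (fun i _ => (t i).2.2.2 (x i))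
      _ = _ := by
          rw [prod_mul_distrib, prod_const, card_univ, Fintype.card_fin]
          norm_num
  have hA0 : (1 : ℝ) ≤ A := by exact_mod_cast hA1
  have hAB' : (A : ℝ) ≤ B := by exact_mod_cast hAB
  have h3 : ∀ b : ZMod n, ∏ i : Fin 6, ∑ m ∈ univ.filter (fun m : ZMod n => b * m = 0),
      cn n (u i) (2 * L i + 1) m ≤
      ((2 * (A : ℝ) + 1 + Nat.gcd b.val n) / n) ^ 3 * ((2 * (B : ℝ) + 1 + Nat.gcd b.val n) / n) ^ 3 := by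
    intro b
    calc _ ≤ ∏ i : Fin 6, ((2 * (L i : ℝ) + 1 + Nat.gcd b.val n) / n) :=
          prod_le_prod (fun i _ => sum_nonneg fun m _ => (t i).1 m) (fun i _ => (t i).2.2.1 b)
      _ = _ := by
          rw [hL]
          simp [Fin.prod_univ_succ]
          ring
  have h4 := hS n (2 * (A : ℝ) + 1) (2 * (B : ℝ) + 1) (3 * K) (by linarith) (by linarith) (by linarith)
    (by nlinarith)
  have h5 : (n : ℝ) ^ 2 * ∑ b : ZMod n, ∏ i : Fin 6, ∑ m ∈ univ.filter (fun m : ZMod n => b * m = 0),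
      cn n (u i) (2 * L i + 1) m ≤
      64 * τ n * (729 * (((A : ℝ) * B) ^ 3 / (n : ℝ) ^ 3) + (3 * K) ^ 3 * (n : ℝ) ^ 2) := by
    refine (mul_le_mul_of_nonneg_left (sum_le_sum fun b _ => h3 b) (by positivity)).trans (h4.trans ?_)
    refine mul_le_mul_of_nonneg_left ?_ (by positivity)
    have k1 : ((2 * (A : ℝ) + 1) * (2 * B + 1)) ^ 3 ≤ 729 * ((A : ℝ) * B) ^ 3 := by
      have k2 : (2 * (A : ℝ) + 1) * (2 * B + 1) ≤ 9 * (A * B) := by nlinarith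
      have k3 := pow_le_pow_left₀ (by positivity) k2 3
      calc _ ≤ (9 * ((A : ℝ) * B)) ^ 3 := k3
        _ = _ := by ring
    have k4 : ((2 * (A : ℝ) + 1) * (2 * B + 1)) ^ 3 / (n : ℝ) ^ 3 ≤ 729 * (((A : ℝ) * B) ^ 3 / (n : ℝ) ^ 3) := by
      rw [← mul_div_assoc]
      exact div_le_div_of_nonneg_right k1 (by positivity)
    linarith
  refine h2.trans (mul_le_mul_of_nonneg_left (h1.trans ?_) (by norm_num))
  rw [mul_assoc]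
  exact mul_le_mul_of_nonneg_left h5 (by positivity)

/-- MNN: six letters, squarefree modulus. -/
theorem hMNN (hB : StBDN) (hT : StWTN) (hP : StPON) (hC : StCTN) (hS : StSMN) (K : ℝ) (hK : 1 ≤ K) :
    ∃ C : ℝ, 0 < C ∧ ∀ (c : ℕ) (a₁ a₂ : (ZMod c)ˣ) (H₁ H₂ : ℝ), Squarefree c →
      1 ≤ H₁ → H₁ ≤ H₂ → H₂ ≤ K * c →
      (Nq 6 c a₁ a₂ H₁ H₂ : ℝ) ≤ C * τ c ^ 7 * ((H₁ * H₂) ^ 3 / (c : ℝ) ^ 3 + (c : ℝ) ^ 2) := by
  refine ⟨8192 * (729 + (3 * K) ^ 3), by positivity, ?_⟩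
  intro c a₁ a₂ H₁ H₂ hc h1 h12 hK2
  have hc1 : c ≠ 0 := hc.ne_zero
  have : NeZero c := ⟨hc1⟩
  have hc0 : (0 : ℝ) < c := by exact_mod_cast Nat.pos_of_ne_zero hc1
  have h2 : 1 ≤ H₂ := h1.trans h12
  have hA1 : 1 ≤ ⌊H₁⌋₊ := Nat.le_floor (by simpa using h1)
  have hA2 : (⌊H₁⌋₊ : ℝ) ≤ H₁ := Nat.floor_le (by linarith)
  have hB2 : (⌊H₂⌋₊ : ℝ) ≤ H₂ := Nat.floor_le (by linarith)
  have hAB : ⌊H₁⌋₊ ≤ ⌊H₂⌋₊ := Nat.floor_le_floor h12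
  have hτ : (1 : ℝ) ≤ τ c := tau1 c (Nat.pos_of_ne_zero hc1)
  have k := hC c a₁ a₂ H₁ H₂ _ h1 h2 (fun γ hγ => one2 hB hT hP hS c hc γ hγ K hK a₁ a₂ ⌊H₁⌋₊ ⌊H₂⌋₊ hA1 hAB
    (hB2.trans hK2))
  have e4 : ((⌊H₁⌋₊ : ℝ) * ⌊H₂⌋₊) ^ 3 / (c : ℝ) ^ 3 ≤ (H₁ * H₂) ^ 3 / (c : ℝ) ^ 3 :=
    div_le_div_of_nonneg_right (pow_le_pow_left₀ (by positivity)
      (mul_le_mul hA2 hB2 (Nat.cast_nonneg _) (by linarith)) _) (by positivity)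
  refine k.trans ?_
  have hX : 0 ≤ (H₁ * H₂) ^ 3 / (c : ℝ) ^ 3 := by
    have : 0 ≤ H₁ * H₂ := by nlinarith
    positivity
  have hY : (0 : ℝ) ≤ (c : ℝ) ^ 2 := by positivity
  have hM : (0 : ℝ) ≤ (3 * K) ^ 3 := by positivity
  have h7 : 0 ≤ τ c ^ 7 := by positivity
  calc 2 * τ c * (64 * (τ c ^ 5 * (64 * τ c * (729 * (((⌊H₁⌋₊ : ℝ) * ⌊H₂⌋₊) ^ 3 / (c : ℝ) ^ 3) +
        (3 * K) ^ 3 * (c : ℝ) ^ 2)))) = 8192 * τ c ^ 7 * (729 * (((⌊H₁⌋₊ : ℝ) * ⌊H₂⌋₊) ^ 3 / (c : ℝ) ^ 3) +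
        (3 * K) ^ 3 * (c : ℝ) ^ 2) := by ring
    _ ≤ 8192 * τ c ^ 7 * ((729 + (3 * K) ^ 3) * ((H₁ * H₂) ^ 3 / (c : ℝ) ^ 3 + (c : ℝ) ^ 2)) := by
        refine mul_le_mul_of_nonneg_left ?_ (by positivity)
        have := mul_nonneg hM hX
        nlinarith
    _ = _ := by ring

/-- longer words, squarefree modulus -/
theorem hLN (h6 : StBDN) (hT : StWTN) (hP : StPON) (hC : StCTN) (hS : StSMN) (hH : StHMN) (r : ℕ) (hr : 3 ≤ r)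
    (K ε : ℝ) (hK : 1 ≤ K) (hε : 0 < ε) :
    ∃ C : ℝ, 0 < C ∧ ∀ (c : ℕ) (a₁ a₂ : (ZMod c)ˣ) (H₁ H₂ : ℝ), Squarefree c →
      1 ≤ H₁ → H₁ ≤ H₂ → H₂ ≤ K * c →
      (Nq (2 * r) c a₁ a₂ H₁ H₂ : ℝ) ≤
        C * (c : ℝ) ^ ε * ((H₁ * H₂) ^ r / (c : ℝ) ^ 3 + (c : ℝ) ^ ((4 * (r : ℝ) - 6) / 3)) := by
  obtain ⟨C₁, hC₁, h₁⟩ := hMNN h6 hT hP hC hS 1 le_rfl
  obtain ⟨C₂, hC₂, h₂⟩ := hH r K hr hK
  obtain ⟨C₃, hC₃, h₃⟩ := fn_div (ε / (9 * r + 3)) (by positivity)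
  refine ⟨C₂ * (C₁ + 1) ^ r * C₃ ^ (9 * r + 3), by positivity, ?_⟩
  intro c a₁ a₂ H₁ H₂ hc hH1 h12 hK2
  have hc1 : 1 ≤ c := Nat.pos_of_ne_zero hc.ne_zero
  have hc0 : (0 : ℝ) < c := by exact_mod_cast hc1
  have hτ : (1 : ℝ) ≤ τ c := tau1 c hc1
  obtain ⟨a, b, ha, hb, hab⟩ := hTR c hc1 a₁ a₂
  have hA1 : 1 ≤ ⌊H₁⌋₊ := Nat.le_floor (by simpa using hH1)
  have hA2 : (⌊H₁⌋₊ : ℝ) ≤ H₁ := Nat.floor_le (by linarith)
  have hB2 : (⌊H₂⌋₊ : ℝ) ≤ H₂ := Nat.floor_le (by linarith)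
  have hAB : ⌊H₁⌋₊ ≤ ⌊H₂⌋₊ := Nat.floor_le_floor h12
  have hD : 1 ≤ (C₁ + 1) * τ c ^ 7 := by
    have : (1 : ℝ) ≤ τ c ^ 7 := one_le_pow₀ hτ
    nlinarith
  have key := h₂ c a b ⌊H₁⌋₊ ⌊H₂⌋₊ ((C₁ + 1) * τ c ^ 7) hc1 ha hb hA1 hAB (hB2.trans hK2) hD (by
    intro e he A' B' hA' hAB' hBe
    have hec : e ∣ c := Nat.dvd_of_mem_divisors he
    have he0 : 1 ≤ e := Nat.pos_of_dvd_of_pos hec hc1
    have hae : IsCoprime a (e : ℤ) := IsCoprime.of_isCoprime_of_dvd_right ha (Int.natCast_dvd_natCast.2 hec)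
    have hbe : IsCoprime b (e : ℤ) := IsCoprime.of_isCoprime_of_dvd_right hb (Int.natCast_dvd_natCast.2 hec)
    obtain ⟨u₁, u₂, hu⟩ := hTR2 e he0 a b hae hbe
    have hA'1 : (1 : ℝ) ≤ A' := by exact_mod_cast hA'
    have hAB'1 : (A' : ℝ) ≤ B' := by exact_mod_cast hAB'
    have hBe1 : (B' : ℝ) ≤ 1 * e := by rw [one_mul]; exact_mod_cast hBe
    have g := h₁ e u₁ u₂ (A' : ℝ) (B' : ℝ) (hc.squarefree_of_dvd hec) hA'1 hAB'1 hBe1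
    have g2 := hu 3 (A' : ℝ) (B' : ℝ) hA'1 hAB'1
    rw [Nat.floor_natCast, Nat.floor_natCast] at g2
    rw [← g2]
    refine g.trans (mul_le_mul_of_nonneg_right ?_ (by positivity))
    have k1 : τ e ^ 7 ≤ τ c ^ 7 :=
      pow_le_pow_left₀ (zero_le_one.trans (tau1 e he0)) (tau_mono e c hec hc1) 7
    have k2 : 0 ≤ τ c ^ 7 := by positivity
    calc C₁ * τ e ^ 7 ≤ C₁ * τ c ^ 7 := mul_le_mul_of_nonneg_left k1 hC₁.le
      _ ≤ _ := by nlinarith)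
  rw [hab r H₁ H₂ hH1 h12]
  refine key.trans ?_
  have e4 : ((⌊H₁⌋₊ : ℝ) * ⌊H₂⌋₊) ^ r / (c : ℝ) ^ 3 ≤ (H₁ * H₂) ^ r / (c : ℝ) ^ 3 :=
    div_le_div_of_nonneg_right (pow_le_pow_left₀ (by positivity)
      (mul_le_mul hA2 hB2 (Nat.cast_nonneg _) (by linarith)) _) (by positivity)
  have e5 : τ c ^ (9 * r + 3) ≤ C₃ ^ (9 * r + 3) * (c : ℝ) ^ ε := by
    have k1 := pow_le_pow_left₀ (by linarith) (h₃ c hc1) (9 * r + 3)
    rw [mul_pow] at k1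
    refine k1.trans (le_of_eq ?_)
    congr 1
    rw [← Real.rpow_natCast, ← Real.rpow_mul hc0.le]
    congr 1
    push_cast
    field_simp
  have e6 : C₂ * τ c ^ (2 * r + 3) * ((C₁ + 1) * τ c ^ 7) ^ r = C₂ * (C₁ + 1) ^ r * τ c ^ (9 * r + 3) := by
    rw [mul_pow, ← pow_mul]
    have : τ c ^ (9 * r + 3) = τ c ^ (2 * r + 3) * τ c ^ (7 * r) := by rw [← pow_add]; congr 1; ring
    rw [this]
    ring
  rw [e6]
  have hZ : 0 ≤ (c : ℝ) ^ ((4 * (r : ℝ) - 6) / 3) := by positivity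
  have e7 : 0 ≤ (H₁ * H₂) ^ r / (c : ℝ) ^ 3 := by
    have : 0 ≤ H₁ * H₂ := by nlinarith
    positivity
  calc _ ≤ C₂ * (C₁ + 1) ^ r * (C₃ ^ (9 * r + 3) * (c : ℝ) ^ ε) *
        ((H₁ * H₂) ^ r / (c : ℝ) ^ 3 + (c : ℝ) ^ ((4 * (r : ℝ) - 6) / 3)) := by
        refine mul_le_mul (mul_le_mul_of_nonneg_left e5 (by positivity)) (by linarith) (by positivity)
          (by positivity)
    _ = _ := by ring

end Pool.Agent.Helper89.HY
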