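import Pool.Agent.Helper89.HY.Final
import Pool.Agent.Helper89.HY.M_MNN

/-!
# HY2: the final theorem
-/

set_option autoImplicit false

noncomputable section

namespace Pool.Agent.Helper89.HY

open Pool.Agent.Helper56.SW (Nq N τ)

private lemma cb2 (x y : ℝ) (n : ℕ) (hx : 0 ≤ x) (hy : 0 ≤ y) (h : x ^ n ≤ y ^ 3) : x ^ ((n : ℝ) / 3) ≤ y := by
  have h1 : x ^ ((n : ℝ) / 3) = (x ^ n) ^ ((1 : ℝ) / 3) := by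
    rw [← Real.rpow_natCast x n, ← Real.rpow_mul hx]
    congr 1
    ring
  have h2 : y = (y ^ 3) ^ ((1 : ℝ) / 3) := by
    rw [← Real.rpow_natCast y 3, ← Real.rpow_mul hy]
    norm_num
  rw [h1, h2]
  exact Real.rpow_le_rpow (by positivity) h (by norm_num)

/-- the second term is at most the first one for large boxes -/
theorem lrg (r c : ℕ) (H₁ H₂ : ℝ) (hc : 1 ≤ c) (h1 : 1 ≤ H₁) (h12 : H₁ ≤ H₂)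
    (hR : (c : ℝ) ^ (4 * r + 3) ≤ (H₁ * H₂) ^ (3 * r)) :
    (c : ℝ) ^ ((4 * (r : ℝ) - 6) / 3) ≤ (H₁ * H₂) ^ r / (c : ℝ) ^ 3 := by
  have hc0 : (0 : ℝ) < c := by exact_mod_cast hc
  have hH : 0 ≤ H₁ * H₂ := by nlinarith
  have k2 := cb2 (c : ℝ) ((H₁ * H₂) ^ r) (4 * r + 3) hc0.le (by positivity)
    (by rw [← pow_mul, mul_comm r 3]; exact hR)
  have k3 : (c : ℝ) ^ ((4 * (r : ℝ) - 6) / 3) = (c : ℝ) ^ (((4 * r + 3 : ℕ) : ℝ) / 3) / (c : ℝ) ^ 3 := by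
    have e : (4 * (r : ℝ) - 6) / 3 = ((4 * r + 3 : ℕ) : ℝ) / 3 - ((3 : ℕ) : ℝ) := by
      push_cast
      ring
    rw [e, Real.rpow_sub hc0, Real.rpow_natCast]
  rw [k3]
  exact div_le_div_of_nonneg_right k2 (by positivity)

theorem fin6 (h6 : StBDN) (hT : StWTN) (hP : StPON) (hC : StCTN) (hS : StSMN) (hH : StHMN) (r : ℕ) (hr : 3 ≤ r)
    (K : ℝ) (hK : 1 ≤ K) :
    (∃ C : ℝ, 0 < C ∧ ∀ (c : ℕ) (a₁ a₂ : (ZMod c)ˣ) (H₁ H₂ : ℝ), c.Prime → 1 ≤ H₁ → H₁ ≤ H₂ →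
      H₂ ≤ K * c →
      (Nq (2 * r) c a₁ a₂ H₁ H₂ : ℝ) ≤
        C * ((H₁ * H₂) ^ r / (c : ℝ) ^ 3 + (c : ℝ) ^ ((4 * (r : ℝ) - 6) / 3))) ∧
    ∀ ε : ℝ, 0 < ε → ∃ C : ℝ, 0 < C ∧ ∀ (c : ℕ) (a₁ a₂ : (ZMod c)ˣ) (H₁ H₂ : ℝ), Squarefree c →
      1 ≤ H₁ → H₁ ≤ H₂ → H₂ ≤ K * c →
      ((Nq (2 * r) c a₁ a₂ H₁ H₂ : ℝ) ≤
        C * (c : ℝ) ^ ε * ((H₁ * H₂) ^ r / (c : ℝ) ^ 3 + (c : ℝ) ^ ((4 * (r : ℝ) - 6) / 3))) ∧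
      ((c : ℝ) ^ (4 * r + 3) ≤ (H₁ * H₂) ^ (3 * r) →
        (Nq (2 * r) c a₁ a₂ H₁ H₂ : ℝ) ≤ C * (c : ℝ) ^ ε *
          (H₂ ^ (r - 1) + (H₁ * H₂) ^ r / (c : ℝ) ^ 3)) ∧
      (c.Prime → (Nq (2 * r) c a₁ a₂ H₁ H₂ : ℝ) ≤ C * (c : ℝ) ^ ε * ((H₁ * H₂) ^ r / (c : ℝ) ^ 3 *
        (1 + c * ((c : ℝ) ^ 2 / (H₁ ^ 3 * H₂) + √(H₂ / H₁) / √(c : ℝ)) ^ ((r : ℝ) / 3)))) ∧
      (c.Prime → (((c : ℝ) ^ (2 * r + 3) ≤ (H₁ ^ 3 * H₂) ^ r ∧ (c : ℝ) ^ 6 * H₂ ^ r ≤ (c * H₁) ^ r) ∨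
          (r = 3 ∧ (H₁ ^ 5 * H₂ ^ 3 ≤ (c : ℝ) ^ 5 ∨ H₁ ^ 7 ≤ (c : ℝ) ^ 4))) →
        (Nq (2 * r) c a₁ a₂ H₁ H₂ : ℝ) ≤ C * (c : ℝ) ^ ε *
          (H₂ ^ (r - 1) + (H₁ * H₂) ^ r / (c : ℝ) ^ 3)) := by
  refine ⟨?_, fun ε hε => ?_⟩
  · obtain ⟨C, hC, h⟩ := fin4 r hr K 1 hK one_pos
    exact ⟨C, hC, fun c a₁ a₂ H₁ H₂ hc h1 h12 h2 => (h c a₁ a₂ H₁ H₂ hc h1 h12 h2).1⟩
  · obtain ⟨C₁, hC₁, f⟩ := fin4 r hr K ε hK hε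
    obtain ⟨C₂, hC₂, g⟩ := hLN h6 hT hP hC hS hH r hr K ε hK hε
    refine ⟨C₁ + 2 * C₂, by positivity, ?_⟩
    intro c a₁ a₂ H₁ H₂ hc h1 h12 h2
    have hc1 : 1 ≤ c := Nat.pos_of_ne_zero hc.ne_zero
    have hc0 : (0 : ℝ) < c := by exact_mod_cast hc1
    have hH10 : 0 < H₁ := by linarith
    have hH20 : 0 < H₂ := by linarith
    have g1 := g c a₁ a₂ H₁ H₂ hc h1 h12 h2
    have mono : ∀ (D x : ℝ), D ≤ C₁ + 2 * C₂ → 0 ≤ x → D * (c : ℝ) ^ ε * x ≤ (C₁ + 2 * C₂) * (c : ℝ) ^ ε * x :=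
      fun D x hD hx => mul_le_mul_of_nonneg_right (mul_le_mul_of_nonneg_right hD (by positivity)) hx
    refine ⟨g1.trans (mono _ _ (by linarith) (by positivity)), fun hR => ?_, fun hp => ?_, fun hp hR => ?_⟩
    · have k := lrg r c H₁ H₂ hc1 h1 h12 hR
      have kk : (H₁ * H₂) ^ r / (c : ℝ) ^ 3 + (c : ℝ) ^ ((4 * (r : ℝ) - 6) / 3) ≤
          2 * (H₂ ^ (r - 1) + (H₁ * H₂) ^ r / (c : ℝ) ^ 3) := by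
        have : 0 ≤ H₂ ^ (r - 1) := by positivity
        linarith
      calc (Nq (2 * r) c a₁ a₂ H₁ H₂ : ℝ) ≤ C₂ * (c : ℝ) ^ ε *
            (2 * (H₂ ^ (r - 1) + (H₁ * H₂) ^ r / (c : ℝ) ^ 3)) :=
            g1.trans (mul_le_mul_of_nonneg_left kk (by positivity))
        _ = 2 * C₂ * (c : ℝ) ^ ε * (H₂ ^ (r - 1) + (H₁ * H₂) ^ r / (c : ℝ) ^ 3) := by ring
        _ ≤ _ := mono _ _ (by linarith) (by positivity)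
    · have hT0 : 0 ≤ Tt c H₁ H₂ := by unfold Tt; positivity
      have hU : 0 ≤ Tt c H₁ H₂ ^ ((r : ℝ) / 3) := Real.rpow_nonneg hT0 _
      exact (f c a₁ a₂ H₁ H₂ hp h1 h12 h2).2.1.trans (mono _ _ (by linarith) (by positivity))
    · exact ((f c a₁ a₂ H₁ H₂ hp h1 h12 h2).2.2 (Or.inr hR)).trans (mono _ _ (by linarith) (by positivity))

end Pool.Agent.Helper89.HY
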