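import Pool.Agent.Helper89.HY.Final2
import Pool.Agent.Helper24.HY.M_LPR
import Pool.Agent.Helper51.HY.M_CRT
import Pool.Agent.Helper97.HY.M_BDN
import Pool.Agent.Helper31.HY.M_WTN
import Pool.Agent.Helper70.HY.M_PON
import Pool.Agent.Helper96.HY.M_CTN
import Pool.Agent.Helper63.HY.M_SMN
import Pool.Agent.Helper22.HY.M_HMN

/-!
# HY2: assembly
-/

set_option autoImplicit false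

namespace Pool.Agent.Helper89.HY

open Pool.Agent.Helper56.SW (Nq N τ)

theorem fnBDN : StBDN :=
  Pool.Agent.Helper97.HY.hBDN
    (Pool.Agent.Helper24.HY.hLPR
      (Pool.Agent.Helper22.HY.hWB Pool.Agent.Helper97.HY.hKM Pool.Agent.Helper83.HY.hPAR))
    Pool.Agent.Helper51.HY.hCRT

theorem fin7 (r : ℕ) (hr : 3 ≤ r) (K : ℝ) (hK : 1 ≤ K) :
    (∃ C : ℝ, 0 < C ∧ ∀ (c : ℕ) (a₁ a₂ : (ZMod c)ˣ) (H₁ H₂ : ℝ), c.Prime → 1 ≤ H₁ → H₁ ≤ H₂ →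
      H₂ ≤ K * c →
      (Nq (2 * r) c a₁ a₂ H₁ H₂ : ℝ) ≤
        C * ((H₁ * H₂) ^ r / (c : ℝ) ^ 3 + (c : ℝ) ^ ((4 * (r : ℝ) - 6) / 3))) ∧
    ∀ ε : ℝ, 0 < ε → ∃ C : ℝ, 0 < C ∧ ∀ (c : ℕ) (a₁ a₂ : (ZMod c)ˣ) (H₁ H₂ : ℝ), Squarefree c →
      1 ≤ H₁ → H₁ ≤ H₂ → H₂ ≤ K * c →
      ((Nq (2 * r) c a₁ a₂ H₁ H₂ : ℝ) ≤
        C * (c : ℝ) ^ ε * ((H₁ * H₂) ^ r / (c : ℝ) ^ 3 + (c : ℝ) ^ ((4 * (r : ℝ) - 6) / 3))) ∧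
      ((c : ℝ) ^ (4 * r + 3) ≤ (H₁ * H₂) ^ (3 * r) →
        (Nq (2 * r) c a₁ a₂ H₁ H₂ : ℝ) ≤ C * (c : ℝ) ^ ε *
          (H₂ ^ (r - 1) + (H₁ * H₂) ^ r / (c : ℝ) ^ 3)) ∧
      (c.Prime → (Nq (2 * r) c a₁ a₂ H₁ H₂ : ℝ) ≤ C * (c : ℝ) ^ ε * ((H₁ * H₂) ^ r / (c : ℝ) ^ 3 *
        (1 + c * ((c : ℝ) ^ 2 / (H₁ ^ 3 * H₂) + √(H₂ / H₁) / √(c : ℝ)) ^ ((r : ℝ) / 3)))) ∧
      (c.Prime → (((c : ℝ) ^ (2 * r + 3) ≤ (H₁ ^ 3 * H₂) ^ r ∧ (c : ℝ) ^ 6 * H₂ ^ r ≤ (c * H₁) ^ r) ∨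
          (r = 3 ∧ (H₁ ^ 5 * H₂ ^ 3 ≤ (c : ℝ) ^ 5 ∨ H₁ ^ 7 ≤ (c : ℝ) ^ 4))) →
        (Nq (2 * r) c a₁ a₂ H₁ H₂ : ℝ) ≤ C * (c : ℝ) ^ ε *
          (H₂ ^ (r - 1) + (H₁ * H₂) ^ r / (c : ℝ) ^ 3)) :=
  fin6 fnBDN Pool.Agent.Helper31.HY.hWTN Pool.Agent.Helper70.HY.hPON Pool.Agent.Helper96.HY.hCTN
    Pool.Agent.Helper63.HY.hSMN Pool.Agent.Helper22.HY.hHMN r hr K hK

end Pool.Agent.Helper89.HY
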