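import Pool.Agent.Helper89.HY.M_FN3

/-!
# HY3: the final theorem
-/

set_option autoImplicit false

noncomputable section

namespace Pool.Agent.Helper89.HY

open Pool.Agent.Helper56.SW (Nq N τ)

/-- the choice of the shorter second side -/
theorem chB (r c : ℕ) (hr : 6 ≤ r) (hc : 1 ≤ c) (H₁ H₂ : ℝ) (h1 : 1 ≤ H₁) (h12 : H₁ ≤ H₂)
    (ha : (c : ℝ) ^ (2 * r + 3) ≤ (H₁ ^ 3 * H₂) ^ r) (hb : (c : ℝ) ^ (r + 9) ≤ H₁ ^ (4 * r)) :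
    ∃ B : ℝ, H₁ ≤ B ∧ B ≤ H₂ ∧ (c : ℝ) ^ (2 * r + 3) ≤ (H₁ ^ 3 * B) ^ r ∧
      (c : ℝ) ^ 6 * B ^ r ≤ (c * H₁) ^ r := by
  have hc0 : (0 : ℝ) < c := by exact_mod_cast hc
  have hc1 : (1 : ℝ) ≤ c := by exact_mod_cast hc
  have hH10 : 0 < H₁ := by linarith
  have hH20 : 0 < H₂ := by linarith
  by_cases h : (c : ℝ) ^ 6 * H₂ ^ r ≤ (c * H₁) ^ r
  · exact ⟨H₂, h12, le_rfl, ha, h⟩
  · rw [not_le] at h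
    have hr0 : (0 : ℝ) < r := by exact_mod_cast (by omega : 0 < r)
    have hr6 : (6 : ℝ) ≤ r := by exact_mod_cast hr
    have hx1 : (1 : ℝ) ≤ (c : ℝ) ^ (((r : ℝ) - 6) / r) := Real.one_le_rpow hc1 (by
      apply div_nonneg
      · linarith
      · exact hr0.le)
    have hxr : ((c : ℝ) ^ (((r : ℝ) - 6) / r)) ^ r = (c : ℝ) ^ (r - 6) := by
      rw [← Real.rpow_natCast, ← Real.rpow_mul hc0.le, ← Real.rpow_natCast]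
      congr 1
      rw [Nat.cast_sub hr]
      field_simp
      push_cast
      ring
    have e6 : (c : ℝ) ^ 6 * (c : ℝ) ^ (r - 6) = (c : ℝ) ^ r := by
      rw [← pow_add]
      congr 1
      omega
    have eB : (c : ℝ) ^ 6 * (H₁ * (c : ℝ) ^ (((r : ℝ) - 6) / r)) ^ r = (c * H₁) ^ r := by
      rw [mul_pow, hxr, mul_pow, ← e6]
      ring
    refine ⟨H₁ * (c : ℝ) ^ (((r : ℝ) - 6) / r), ?_, ?_, ?_, eB.le⟩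
    · exact le_mul_of_one_le_right hH10.le hx1
    · have k1 : (H₁ * (c : ℝ) ^ (((r : ℝ) - 6) / r)) ^ r < H₂ ^ r := by
        have k2 : (c : ℝ) ^ 6 * (H₁ * (c : ℝ) ^ (((r : ℝ) - 6) / r)) ^ r < (c : ℝ) ^ 6 * H₂ ^ r := by
          rw [eB]
          exact h
        exact lt_of_mul_lt_mul_left k2 (by positivity)
      exact (lt_of_pow_lt_pow_left₀ r hH20.le k1).le
    · have e1 : (H₁ ^ 3 * (H₁ * (c : ℝ) ^ (((r : ℝ) - 6) / r))) ^ r = H₁ ^ (4 * r) * (c : ℝ) ^ (r - 6) := by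
        rw [mul_pow, mul_pow, hxr]
        ring
      have e2 : (c : ℝ) ^ (2 * r + 3) = (c : ℝ) ^ (r + 9) * (c : ℝ) ^ (r - 6) := by
        rw [← pow_add]
        congr 1
        omega
      rw [e1, e2]
      exact mul_le_mul_of_nonneg_right hb (by positivity)

theorem fin8 (hCHB : StCHB) (hF1 : StF1W) (hT : StTRN) (r : ℕ) (hr : 3 ≤ r) (K : ℝ) (hK : 1 ≤ K) :
    (∃ C : ℝ, 0 < C ∧ ∀ (c : ℕ) (a₁ a₂ : (ZMod c)ˣ) (H₁ H₂ : ℝ), c.Prime → 1 ≤ H₁ → H₁ ≤ H₂ →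
      H₂ ≤ K * c →
      (Nq (2 * r) c a₁ a₂ H₁ H₂ : ℝ) ≤
        C * ((H₁ * H₂) ^ r / (c : ℝ) ^ 3 + (c : ℝ) ^ ((4 * (r : ℝ) - 6) / 3))) ∧
    ∀ ε : ℝ, 0 < ε → ∃ C : ℝ, 0 < C ∧ ∀ (c : ℕ) (a₁ a₂ : (ZMod c)ˣ) (H₁ H₂ : ℝ), Squarefree c →
      1 ≤ H₁ → H₁ ≤ H₂ → H₂ ≤ K * c →
      ((Nq (2 * r) c a₁ a₂ H₁ H₂ : ℝ) ≤
        C * (c : ℝ) ^ ε * ((H₁ * H₂) ^ r / (c : ℝ) ^ 3 + (c : ℝ) ^ ((4 * (r : ℝ) - 6) / 3))) ∧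
      ((c : ℝ) ^ (4 * r + 3) ≤ (H₁ * H₂) ^ (3 * r) →
        (Nq (2 * r) c a₁ a₂ H₁ H₂ : ℝ) ≤ C * (c : ℝ) ^ ε *
          (H₂ ^ (r - 1) + (H₁ * H₂) ^ r / (c : ℝ) ^ 3)) ∧
      (c.Prime → ∀ B : ℝ, H₁ ≤ B → B ≤ H₂ →
        (Nq (2 * r) c a₁ a₂ H₁ H₂ : ℝ) ≤ C * (c : ℝ) ^ ε * ((H₁ * H₂) ^ r / (c : ℝ) ^ 3 *
        (1 + c * ((c : ℝ) ^ 2 / (H₁ ^ 3 * B) + √(B / H₁) / √(c : ℝ)) ^ ((r : ℝ) / 3)))) ∧
      (c.Prime → ((6 ≤ r ∧ (c : ℝ) ^ (2 * r + 3) ≤ (H₁ ^ 3 * H₂) ^ r ∧ (c : ℝ) ^ (r + 9) ≤ H₁ ^ (4 * r)) ∨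
          (r = 3 ∧ (H₁ ^ 5 * H₂ ^ 3 ≤ (c : ℝ) ^ 5 ∨ H₁ ^ 7 ≤ (c : ℝ) ^ 4))) →
        (Nq (2 * r) c a₁ a₂ H₁ H₂ : ℝ) ≤ C * (c : ℝ) ^ ε *
          (H₂ ^ (r - 1) + (H₁ * H₂) ^ r / (c : ℝ) ^ 3)) := by
  obtain ⟨f1, f2⟩ := fin7 r hr K hK
  refine ⟨f1, fun ε hε => ?_⟩
  obtain ⟨C₁, hC₁, f⟩ := f2 ε hε
  obtain ⟨C₂, hC₂, g⟩ := pIII hCHB hF1 hT Pool.Agent.Helper89.HX.finA Pool.Agent.Helper56.HY.hHM r hr K ε hK hε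
  refine ⟨C₁ + C₂ * (1 + 2 ^ (r + 1)), by positivity, ?_⟩
  intro c a₁ a₂ H₁ H₂ hc h1 h12 h2
  have hc1 : 1 ≤ c := Nat.pos_of_ne_zero hc.ne_zero
  have hc0 : (0 : ℝ) < c := by exact_mod_cast hc1
  have hH10 : 0 < H₁ := by linarith
  have hH20 : 0 < H₂ := by linarith
  obtain ⟨p1, p2, -, p4⟩ := f c a₁ a₂ H₁ H₂ hc h1 h12 h2
  have h2r : (0 : ℝ) ≤ 2 ^ (r + 1) := by positivity
  have hCC : C₂ ≤ C₂ * (1 + 2 ^ (r + 1)) := by nlinarith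
  have mono : ∀ (D x : ℝ), D ≤ C₁ + C₂ * (1 + 2 ^ (r + 1)) → 0 ≤ x →
      D * (c : ℝ) ^ ε * x ≤ (C₁ + C₂ * (1 + 2 ^ (r + 1))) * (c : ℝ) ^ ε * x :=
    fun D x hD hx => mul_le_mul_of_nonneg_right (mul_le_mul_of_nonneg_right hD (by positivity)) hx
  have hCp : 0 ≤ C₂ * (1 + 2 ^ (r + 1)) := by positivity
  have hZ : 0 ≤ H₂ ^ (r - 1) + (H₁ * H₂) ^ r / (c : ℝ) ^ 3 := by positivity
  have hX : 0 ≤ (H₁ * H₂) ^ r / (c : ℝ) ^ 3 := by positivity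
  refine ⟨p1.trans (mono _ _ (by linarith) (by positivity)), fun hR => (p2 hR).trans (mono _ _ (by linarith) hZ),
    fun hp B hB1 hB2 => ?_, fun hp hR => ?_⟩
  · have hB0 : 0 < B := by linarith
    have hT0 : 0 ≤ Tt c H₁ B := by unfold Tt; positivity
    have hU : 0 ≤ Tt c H₁ B ^ ((r : ℝ) / 3) := Real.rpow_nonneg hT0 _
    exact (g c a₁ a₂ H₁ H₂ B hp h1 hB1 hB2 h2).trans (mono _ _ (by linarith) (by positivity))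
  · rcases hR with ⟨hr6, ha, hb⟩ | hR
    · obtain ⟨B, hB1, hB2, hBa, hBb⟩ := chB r c hr6 hc1 H₁ H₂ h1 h12 ha hb
      have k1 := pT3 r c hr hc1 H₁ B h1 hB1 hBa hBb
      calc (Nq (2 * r) c a₁ a₂ H₁ H₂ : ℝ) ≤ C₂ * (c : ℝ) ^ ε * ((H₁ * H₂) ^ r / (c : ℝ) ^ 3 *
            (1 + 2 ^ (r + 1))) := (g c a₁ a₂ H₁ H₂ B hp h1 hB1 hB2 h2).trans (mul_le_mul_of_nonneg_left
              (mul_le_mul_of_nonneg_left (by linarith) hX) (by positivity))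
        _ = C₂ * (1 + 2 ^ (r + 1)) * (c : ℝ) ^ ε * ((H₁ * H₂) ^ r / (c : ℝ) ^ 3) := by ring
        _ ≤ C₂ * (1 + 2 ^ (r + 1)) * (c : ℝ) ^ ε * (H₂ ^ (r - 1) + (H₁ * H₂) ^ r / (c : ℝ) ^ 3) := by
            refine mul_le_mul_of_nonneg_left ?_ (by positivity)
            have : 0 ≤ H₂ ^ (r - 1) := by positivity
            linarith
        _ ≤ _ := mono _ _ (by linarith) hZ
    · exact (p4 hp (Or.inr hR)).trans (mono _ _ (by linarith) hZ)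

end Pool.Agent.Helper89.HY
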