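import Pool.Agent.Helper89.HY.St3
import Pool.Agent.Helper89.HY.Final3

/-!
# HY3: monotonicity in the box and the final theorem
-/

set_option autoImplicit false

noncomputable section

namespace Pool.Agent.Helper89.HY

open Finset
open Pool.Agent.Helper56.SW (Nq N τ)
open Pool.Agent.Helper89.HX (StFinA fin1)
open Pool.Agent.Helper28.SP (SG zP)

private lemma fl (H : ℝ) (hH : 1 ≤ H) : 1 ≤ ⌊H⌋₊ ∧ (⌊H⌋₊ : ℝ) ≤ H ∧ H / 2 ≤ (⌊H⌋₊ : ℝ) := by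
  have h0 : 1 ≤ ⌊H⌋₊ := Nat.le_floor (by simpa using hH)
  have h1 : H < ⌊H⌋₊ + 1 := Nat.lt_floor_add_one H
  have h2 : (1 : ℝ) ≤ ⌊H⌋₊ := by exact_mod_cast h0
  exact ⟨h0, Nat.floor_le (by linarith), by linarith⟩

private lemma cb (x y : ℝ) (n : ℕ) (hx : 0 ≤ x) (hy : 0 ≤ y) (h : x ^ n ≤ y ^ 3) : x ^ ((n : ℝ) / 3) ≤ y := by
  have h1 : x ^ ((n : ℝ) / 3) = (x ^ n) ^ ((1 : ℝ) / 3) := by
    rw [← Real.rpow_natCast x n, ← Real.rpow_mul hx]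
    congr 1
    ring
  have h2 : y = (y ^ 3) ^ ((1 : ℝ) / 3) := by
    rw [← Real.rpow_natCast y 3, ← Real.rpow_mul hy]
    norm_num
  rw [h1, h2]
  exact Real.rpow_le_rpow (by positivity) h (by norm_num)

theorem pT3 (r c : ℕ) (hr : 3 ≤ r) (hc : 1 ≤ c) (H₁ H₂ : ℝ) (h1 : 1 ≤ H₁) (h12 : H₁ ≤ H₂)
    (ha : (c : ℝ) ^ (2 * r + 3) ≤ (H₁ ^ 3 * H₂) ^ r) (hb : (c : ℝ) ^ 6 * H₂ ^ r ≤ (c * H₁) ^ r) :
    c * Tt c H₁ H₂ ^ ((r : ℝ) / 3) ≤ 2 ^ (r + 1) := by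
  have hc0 : (0 : ℝ) < c := by exact_mod_cast hc
  have hH10 : 0 < H₁ := by linarith
  have hH20 : 0 < H₂ := by linarith
  set T₁ : ℝ := (c : ℝ) ^ 2 / (H₁ ^ 3 * H₂) with hT1
  set T₂ : ℝ := √(H₂ / H₁) / √(c : ℝ) with hT2
  have p1 : 0 ≤ T₁ := by positivity
  have p2 : 0 ≤ T₂ := by positivity
  have q1 : T₁ ^ r ≤ 1 / (c : ℝ) ^ 3 := by
    rw [hT1, div_pow, div_le_div_iff₀ (by positivity) (by positivity), one_mul]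
    calc ((c : ℝ) ^ 2) ^ r * (c : ℝ) ^ 3 = (c : ℝ) ^ (2 * r + 3) := by rw [← pow_mul, ← pow_add]
      _ ≤ _ := ha
  have q2 : T₂ ^ r ≤ 1 / (c : ℝ) ^ 3 := by
    have k1 : T₂ ^ 2 = H₂ / (c * H₁) := by
      rw [hT2, div_pow, Real.sq_sqrt (by positivity), Real.sq_sqrt hc0.le]
      field_simp
    have k2 : (T₂ ^ r) ^ 2 ≤ (1 / (c : ℝ) ^ 3) ^ 2 := by
      rw [← pow_mul, mul_comm, pow_mul, k1, div_pow, div_pow, one_pow,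
        div_le_div_iff₀ (by positivity) (by positivity), one_mul]
      calc H₂ ^ r * ((c : ℝ) ^ 3) ^ 2 = (c : ℝ) ^ 6 * H₂ ^ r := by ring
        _ ≤ _ := hb
    exact le_of_sq_le_sq k2 (by positivity)
  have q3 : (T₁ + T₂) ^ r ≤ (2 ^ (r + 1) / (c : ℝ)) ^ 3 := by
    have k1 : T₁ + T₂ ≤ 2 * max T₁ T₂ := by
      have := le_max_left T₁ T₂
      have := le_max_right T₁ T₂
      linarith
    have k2 : (T₁ + T₂) ^ r ≤ (2 * max T₁ T₂) ^ r := pow_le_pow_left₀ (by positivity) k1 _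
    have k3 : max T₁ T₂ ^ r ≤ 1 / (c : ℝ) ^ 3 := by
      rcases max_choice T₁ T₂ with h | h <;> rw [h] <;> assumption
    have k4 : (2 : ℝ) ^ r ≤ (2 ^ (r + 1)) ^ 3 := by
      rw [← pow_mul]
      exact pow_le_pow_right₀ (by norm_num) (by omega)
    calc (T₁ + T₂) ^ r ≤ (2 * max T₁ T₂) ^ r := k2
      _ = 2 ^ r * max T₁ T₂ ^ r := mul_pow _ _ _
      _ ≤ (2 ^ (r + 1)) ^ 3 * (1 / (c : ℝ) ^ 3) := mul_le_mul k4 k3 (by positivity) (by positivity)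
      _ = _ := by rw [div_pow]; ring
  have q4 := cb (T₁ + T₂) (2 ^ (r + 1) / (c : ℝ)) r (by positivity) (by positivity) q3
  unfold Tt
  calc (c : ℝ) * (T₁ + T₂) ^ ((r : ℝ) / 3) ≤ c * (2 ^ (r + 1) / (c : ℝ)) :=
        mul_le_mul_of_nonneg_left q4 hc0.le
    _ = _ := by field_simp


/-- the normalised six-letter count does not increase with the second side of the box -/
theorem mon (hCHB : StCHB) (hF : StF1W) (hT : StTRN) (c : ℕ) (a b : ℤ) (A B B' : ℕ) (hc : 1 ≤ c) (hA : 1 ≤ A)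
    (hB' : 1 ≤ B') (h : B' ≤ B) :
    (N c a b 3 A B : ℝ) ≤ 1024 * τ c * ((B : ℝ) / B') ^ 3 * (N c a b 3 (2 * A) (2 * B') : ℝ) := by
  have h1 := hT c a b A B B' (((2 * (A : ℝ) + 1) * (2 * B' + 1)) ^ 3 * (N c a b 3 (2 * A) (2 * B') : ℝ)) hc hA hB' h
    (by positivity) (fun g => by
      exact le_trans (Nat.cast_le.2 (hCHB (SG c) (ℕ × ℕ) (range (2 * A + 1) ×ˢ range (2 * B' + 1))
        (fun i : ℕ × ℕ => (Pool.Agent.Helper28.SP.red c (zP a b i) : SG c)) g)) (hF c a b A B' hc))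
  have hQ : (0 : ℝ) < (((A : ℝ) + 1) * ((B' : ℝ) + 1)) ^ 3 := by positivity
  have hτ : (0 : ℝ) ≤ τ c := by unfold Pool.Agent.Helper56.SW.τ; positivity
  have k1 : ((2 * (A : ℝ) + 1) * (2 * B' + 1)) ^ 3 ≤ 64 * (((A : ℝ) + 1) * ((B' : ℝ) + 1)) ^ 3 := by
    have hA0 : (0 : ℝ) ≤ A := Nat.cast_nonneg A
    have hB0 : (0 : ℝ) ≤ B' := Nat.cast_nonneg B'
    have k2 : (2 * (A : ℝ) + 1) * (2 * B' + 1) ≤ 4 * (((A : ℝ) + 1) * ((B' : ℝ) + 1)) := by nlinarith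
    calc _ ≤ (4 * (((A : ℝ) + 1) * ((B' : ℝ) + 1))) ^ 3 := pow_le_pow_left₀ (by positivity) k2 3
      _ = _ := by ring
  have hN : (0 : ℝ) ≤ (N c a b 3 (2 * A) (2 * B') : ℝ) := Nat.cast_nonneg _
  have h2 : (N c a b 3 A B : ℝ) * (((A : ℝ) + 1) * ((B' : ℝ) + 1)) ^ 3 ≤
      (1024 * τ c * ((B : ℝ) / B') ^ 3 * (N c a b 3 (2 * A) (2 * B') : ℝ)) *
        (((A : ℝ) + 1) * ((B' : ℝ) + 1)) ^ 3 := by
    refine h1.trans ?_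
    have e : (2 * (B : ℝ) / B') ^ 3 = 8 * ((B : ℝ) / B') ^ 3 := by ring
    rw [e]
    have hR : (0 : ℝ) ≤ ((B : ℝ) / B') ^ 3 := by positivity
    calc 8 * ((B : ℝ) / B') ^ 3 * (2 * τ c) * (((2 * (A : ℝ) + 1) * (2 * B' + 1)) ^ 3 *
          (N c a b 3 (2 * A) (2 * B') : ℝ)) ≤ 8 * ((B : ℝ) / B') ^ 3 * (2 * τ c) *
          ((64 * (((A : ℝ) + 1) * ((B' : ℝ) + 1)) ^ 3) * (N c a b 3 (2 * A) (2 * B') : ℝ)) := by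
          refine mul_le_mul_of_nonneg_left (mul_le_mul_of_nonneg_right k1 hN) (by positivity)
      _ = _ := by ring
  exact le_of_mul_le_mul_right h2 hQ

theorem pIII (hCHB : StCHB) (hF1 : StF1W) (hT : StTRN) (hF : StFinA) (hHM : StHM) (r : ℕ) (hr : 3 ≤ r)
    (K ε : ℝ) (hK : 1 ≤ K) (hε : 0 < ε) :
    ∃ C : ℝ, 0 < C ∧
    ∀ (c : ℕ) (a₁ a₂ : (ZMod c)ˣ) (H₁ H₂ B₀ : ℝ), c.Prime → 1 ≤ H₁ → H₁ ≤ B₀ → B₀ ≤ H₂ → H₂ ≤ K * c →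
      (Nq (2 * r) c a₁ a₂ H₁ H₂ : ℝ) ≤
        C * (c : ℝ) ^ ε * ((H₁ * H₂) ^ r / (c : ℝ) ^ 3 * (1 + c * Tt c H₁ B₀ ^ ((r : ℝ) / 3))) := by
  have hr0 : (0 : ℝ) < r := by exact_mod_cast (by omega : 0 < r)
  obtain ⟨C₀, hC₀, h₀⟩ := hF (4 * K) (ε / r) (by linarith) (by positivity)
  obtain ⟨C₁, hC₁, h₁⟩ := hHM r hr
  refine ⟨C₁ * (2048 * 4096 * C₀ + 1) ^ r * 16 ^ r, by positivity, ?_⟩
  intro c a₁ a₂ H₁ H₂ B₀ hc hH1 h1B hB2 hK2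
  have hH2 : 1 ≤ B₀ := hH1.trans h1B
  have h12 : H₁ ≤ H₂ := h1B.trans hB2
  obtain ⟨a, b, ha, hb, hab⟩ := hTR c hc.one_lt.le a₁ a₂
  obtain ⟨hA1, hA2, hA3⟩ := fl H₁ hH1
  obtain ⟨hb1, hb2, hb3⟩ := fl B₀ hH2
  obtain ⟨hB1, hB2', hB3⟩ := fl H₂ (hH1.trans h12)
  have hAb : ⌊H₁⌋₊ ≤ ⌊B₀⌋₊ := Nat.floor_le_floor h1B
  have hbB : ⌊B₀⌋₊ ≤ ⌊H₂⌋₊ := Nat.floor_le_floor hB2
  have hAB : ⌊H₁⌋₊ ≤ ⌊H₂⌋₊ := Nat.floor_le_floor h12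
  have hτ : τ c = 2 := by
    unfold Pool.Agent.Helper56.SW.τ
    rw [Nat.Prime.divisors hc, Finset.card_pair hc.one_lt.ne]
    norm_num
  have hm := mon hCHB hF1 hT c a b (2 * ⌊H₁⌋₊) (2 * ⌊H₂⌋₊) (2 * ⌊B₀⌋₊) hc.one_lt.le (by omega) (by omega)
    (by omega)
  have hA1' : (1 : ℝ) ≤ ⌊H₁⌋₊ := by exact_mod_cast hA1
  have hAb' : (⌊H₁⌋₊ : ℝ) ≤ ⌊B₀⌋₊ := by exact_mod_cast hAb
  have hbB' : (⌊B₀⌋₊ : ℝ) ≤ ⌊H₂⌋₊ := by exact_mod_cast hbB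
  have hc0 : (0 : ℝ) < c := by exact_mod_cast hc.pos
  have hc1 : (1 : ℝ) ≤ c := by exact_mod_cast hc.one_lt.le
  have h4 := hab 3 (4 * (⌊H₁⌋₊ : ℝ)) (4 * (⌊B₀⌋₊ : ℝ)) (by linarith) (by linarith)
  have e1 : ⌊4 * (⌊H₁⌋₊ : ℝ)⌋₊ = 2 * (2 * ⌊H₁⌋₊) := by
    have : (4 * (⌊H₁⌋₊ : ℝ)) = ((2 * (2 * ⌊H₁⌋₊) : ℕ) : ℝ) := by push_cast; ring
    rw [this, Nat.floor_natCast]
  have e2 : ⌊4 * (⌊B₀⌋₊ : ℝ)⌋₊ = 2 * (2 * ⌊B₀⌋₊) := by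
    have : (4 * (⌊B₀⌋₊ : ℝ)) = ((2 * (2 * ⌊B₀⌋₊) : ℕ) : ℝ) := by push_cast; ring
    rw [this, Nat.floor_natCast]
  rw [e1, e2] at h4
  rw [← h4, hτ] at hm
  have g := h₀ c a₁ a₂ (4 * (⌊H₁⌋₊ : ℝ)) (4 * (⌊B₀⌋₊ : ℝ)) hc (by linarith) (by linarith) (by linarith)
  have hw1 : (1 : ℝ) ≤ (c : ℝ) ^ (ε / r) := Real.one_le_rpow hc1 (by positivity)
  have hwr : ((c : ℝ) ^ (ε / r)) ^ r = (c : ℝ) ^ ε := by
    rw [← Real.rpow_natCast, ← Real.rpow_mul hc0.le]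
    congr 1
    field_simp
  have hD1 : 1 ≤ (2048 * 4096 * C₀ + 1) * (c : ℝ) ^ (ε / r) := by nlinarith
  have f := h₁ c a b ⌊H₁⌋₊ ⌊H₂⌋₊ ((2048 * 4096 * C₀ + 1) * (c : ℝ) ^ (ε / r)) (Tt c (⌊H₁⌋₊ : ℝ) (⌊B₀⌋₊ : ℝ)) hc ha hb
    hA1 hAB hD1 (by unfold Tt; positivity)
  rw [hab r H₁ H₂ hH1 h12]
  clear h₁ h₀ h4 e1 e2 hab
  push_cast at hm
  have hm' : (N c a b 3 (2 * ⌊H₁⌋₊) (2 * ⌊H₂⌋₊) : ℝ) ≤ 2048 * ((2 * (⌊H₂⌋₊ : ℝ)) / (2 * (⌊B₀⌋₊ : ℝ))) ^ 3 *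
      (Nq 6 c a₁ a₂ (4 * (⌊H₁⌋₊ : ℝ)) (4 * (⌊B₀⌋₊ : ℝ)) : ℝ) := by
    refine hm.trans (le_of_eq ?_)
    norm_num
  clear hm
  generalize (N c a b 3 (2 * ⌊H₁⌋₊) (2 * ⌊H₂⌋₊) : ℝ) = N3 at *
  generalize (N c a b r ⌊H₁⌋₊ ⌊H₂⌋₊ : ℝ) = Nr at *
  generalize (⌊H₁⌋₊ : ℝ) = A at *
  generalize (⌊H₂⌋₊ : ℝ) = B at *
  generalize (⌊B₀⌋₊ : ℝ) = β at *
  have hA0 : 0 < A := by linarith
  have hβ0 : 0 < β := by linarith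
  have hB0 : 0 < B := by linarith
  have hH10 : 0 < H₁ := by linarith
  have hH20 : 0 < H₂ := by linarith
  have hb0 : 0 < B₀ := by linarith
  have hsc : 0 < √(c : ℝ) := Real.sqrt_pos.2 hc0
  have hsc2 : √(c : ℝ) * √(c : ℝ) = c := Real.mul_self_sqrt hc0.le
  have e10 : (c : ℝ) / √(c : ℝ) = √(c : ℝ) := by
    rw [div_eq_iff hsc.ne', hsc2]
  have e1 : (A * B) ^ 3 / (c : ℝ) ^ 3 * (1 + c * Tt c A β) =
      (A * B) ^ 3 / (c : ℝ) ^ 3 + (B / β) ^ 3 * (β ^ 2 + √(β / A) * (√(c : ℝ) * ((A * β) ^ 3 / (c : ℝ) ^ 3))) := by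
    have e11 : (A * B) ^ 3 / (c : ℝ) ^ 3 * (c * ((c : ℝ) ^ 2 / (A ^ 3 * β))) = (B / β) ^ 3 * β ^ 2 := by
      field_simp
    have e12 : (c : ℝ) * (√(β / A) / √(c : ℝ)) = √(β / A) * √(c : ℝ) := by
      rw [mul_div_left_comm, e10]
    have e13 : (B / β) ^ 3 * (√(β / A) * (√(c : ℝ) * ((A * β) ^ 3 / (c : ℝ) ^ 3))) =
        (A * B) ^ 3 / (c : ℝ) ^ 3 * (√(β / A) * √(c : ℝ)) := by
      generalize √(β / A) = x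
      generalize √(c : ℝ) = y
      field_simp
    unfold Tt
    rw [mul_add (c : ℝ), e12, mul_add ((B / β) ^ 3), e13]
    linear_combination e11
  have e2 : (4 * β) ^ 2 + √(4 * β / (4 * A)) * (√(c : ℝ) * ((4 * A * (4 * β)) ^ 3 / (c : ℝ) ^ 3)) =
      16 * β ^ 2 + 4096 * (√(β / A) * (√(c : ℝ) * ((A * β) ^ 3 / (c : ℝ) ^ 3))) := by
    rw [mul_div_mul_left _ _ (four_ne_zero' ℝ)]
    ring
  rw [e1] at f
  rw [e2] at g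
  have hX : 0 ≤ (A * B) ^ 3 / (c : ℝ) ^ 3 := by positivity
  have hY : 0 ≤ β ^ 2 := by positivity
  have hZ : 0 ≤ √(β / A) * (√(c : ℝ) * ((A * β) ^ 3 / (c : ℝ) ^ 3)) := by positivity
  have hW : 0 ≤ (B / β) ^ 3 := by positivity
  have f2 := f (by
    refine hm'.trans ?_
    rw [mul_div_mul_left _ _ (two_ne_zero' ℝ)]
    have k1 : 16 * β ^ 2 + 4096 * (√(β / A) * (√(c : ℝ) * ((A * β) ^ 3 / (c : ℝ) ^ 3))) ≤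
        4096 * (β ^ 2 + √(β / A) * (√(c : ℝ) * ((A * β) ^ 3 / (c : ℝ) ^ 3))) := by
      linarith
    have k2 := g.trans (mul_le_mul_of_nonneg_left k1 (by positivity : 0 ≤ C₀ * (c : ℝ) ^ (ε / r)))
    have k3 := mul_le_mul_of_nonneg_left k2 (by positivity : 0 ≤ 2048 * (B / β) ^ 3)
    refine k3.trans ?_
    have k4 : 0 ≤ (c : ℝ) ^ (ε / r) * ((A * B) ^ 3 / (c : ℝ) ^ 3) := by positivity
    have k5 : 0 ≤ C₀ * ((c : ℝ) ^ (ε / r) * ((A * B) ^ 3 / (c : ℝ) ^ 3)) := by positivity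
    have k6 : 0 ≤ (c : ℝ) ^ (ε / r) * ((B / β) ^ 3 * (β ^ 2 + √(β / A) * (√(c : ℝ) * ((A * β) ^ 3 / (c : ℝ) ^ 3)))) := by
      positivity
    nlinarith)
  refine f2.trans ?_
  rw [mul_pow, hwr]
  have hT0 : 0 ≤ Tt c H₁ B₀ := by unfold Tt; positivity
  have hT1 : 0 ≤ Tt c A β := by unfold Tt; positivity
  have t1 : Tt c A β ≤ 16 * Tt c H₁ B₀ := by
    unfold Tt
    have k1 : H₁ ^ 3 * B₀ ≤ 16 * (A ^ 3 * β) := by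
      have := mul_le_mul (pow_le_pow_left₀ (by positivity) hA3 3) hb3 (by positivity) (by positivity)
      nlinarith
    have k2 : (c : ℝ) ^ 2 / (A ^ 3 * β) ≤ 16 * ((c : ℝ) ^ 2 / (H₁ ^ 3 * B₀)) := by
      rw [← mul_div_assoc, div_le_div_iff₀ (by positivity) (by positivity)]
      have := mul_le_mul_of_nonneg_left k1 (by positivity : (0 : ℝ) ≤ (c : ℝ) ^ 2)
      linarith
    have k3 : β / A ≤ 16 ^ 2 * (B₀ / H₁) := by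
      rw [← mul_div_assoc, div_le_div_iff₀ hA0 hH10]
      nlinarith [mul_le_mul hb2 hA3 (by positivity) hb0.le, mul_pos hH10 hb0, mul_pos hA0 hb0]
    have k4 : √(β / A) ≤ 16 * √(B₀ / H₁) := by
      have := Real.sqrt_le_sqrt k3
      rwa [Real.sqrt_mul (by positivity), Real.sqrt_sq (by norm_num)] at this
    have k5 : √(β / A) / √(c : ℝ) ≤ 16 * (√(B₀ / H₁) / √(c : ℝ)) := by
      rw [← mul_div_assoc]
      exact div_le_div_of_nonneg_right k4 hsc.le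
    linarith
  have t2 : Tt c A β ^ ((r : ℝ) / 3) ≤ 16 ^ r * Tt c H₁ B₀ ^ ((r : ℝ) / 3) := by
    calc Tt c A β ^ ((r : ℝ) / 3) ≤ (16 * Tt c H₁ B₀) ^ ((r : ℝ) / 3) :=
          Real.rpow_le_rpow hT1 t1 (by positivity)
      _ = 16 ^ ((r : ℝ) / 3) * Tt c H₁ B₀ ^ ((r : ℝ) / 3) := Real.mul_rpow (by norm_num) hT0
      _ ≤ 16 ^ (r : ℝ) * Tt c H₁ B₀ ^ ((r : ℝ) / 3) := by
          refine mul_le_mul_of_nonneg_right ?_ (Real.rpow_nonneg hT0 _)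
          exact Real.rpow_le_rpow_of_exponent_le (by norm_num) (by linarith)
      _ = _ := by rw [Real.rpow_natCast]
  have hU : 0 ≤ Tt c H₁ B₀ ^ ((r : ℝ) / 3) := Real.rpow_nonneg hT0 _
  have h16 : (1 : ℝ) ≤ 16 ^ r := one_le_pow₀ (by norm_num)
  have e4 : (A * B) ^ r / (c : ℝ) ^ 3 ≤ (H₁ * H₂) ^ r / (c : ℝ) ^ 3 :=
    div_le_div_of_nonneg_right (pow_le_pow_left₀ (by positivity) (mul_le_mul hA2 hB2' hB0.le hH10.le) _)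
      (by positivity)
  have e5 : 1 + c * Tt c A β ^ ((r : ℝ) / 3) ≤ 16 ^ r * (1 + c * Tt c H₁ B₀ ^ ((r : ℝ) / 3)) := by
    have := mul_le_mul_of_nonneg_left t2 hc0.le
    nlinarith
  have e6 := mul_le_mul e4 e5 (by have := Real.rpow_nonneg hT1 ((r : ℝ) / 3); positivity) (by positivity)
  calc _ ≤ C₁ * ((2048 * 4096 * C₀ + 1) ^ r * (c : ℝ) ^ ε) * ((H₁ * H₂) ^ r / (c : ℝ) ^ 3 *
        (16 ^ r * (1 + c * Tt c H₁ B₀ ^ ((r : ℝ) / 3)))) := mul_le_mul_of_nonneg_left e6 (by positivity)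
    _ = _ := by ring

end Pool.Agent.Helper89.HY
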