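import Pool.Agent.Helper89.HY.St

/-!
# HY, MN: the bound for six letters
-/

set_option autoImplicit false

noncomputable section

namespace Pool.Agent.Helper89.HY

open Finset
open Pool.Agent.Helper56.SW (Nq N)

private lemma one (hW : StWB) (hP : StPOS) (hT : StWT) (p : ℕ) [Fact p.Prime] (γ : ZMod p) (hγ : γ ^ 2 = 1)
    (K : ℝ) (hK : 1 ≤ K) (a : Fin 6 → ZMod p) (ha : ∀ i, a i ≠ 0) (A : Fin 6 → ℕ) (hA1 : ∀ i, 1 ≤ A i)
    (hAK : ∀ i, (A i : ℝ) ≤ K * p) :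
    ∑ x ∈ Vg p γ, ∏ i : Fin 6, (nb p (a i) (A i) (x i) : ℝ) ≤
      64 * ((∏ i : Fin 6, (3 * (A i : ℝ) / p)) * (5 * (p : ℝ) ^ 3) + 20 * (p : ℝ) ^ 2 * (3 * K + 1) ^ 6) := by
  have hp : (0 : ℝ) < p := by exact_mod_cast (Fact.out : p.Prime).pos
  obtain ⟨hV, hB⟩ := hW p γ hγ
  have t := fun i => hT p (a i) (A i) (ha i)
  have h1 := hP p (Vg p γ) (fun i => cw p (a i) (2 * A i + 1)) (fun i => cv p (a i) (2 * A i + 1))
    (20 * (p : ℝ) ^ 2) (by positivity) (fun i m => (t i).1 m) (fun i x => (t i).2.1 x) hB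
  have hcw : ∀ i x, 0 ≤ cw p (a i) (2 * A i + 1) x := by
    intro i x
    unfold cw
    positivity
  have hA0 : ∀ i, (1 : ℝ) ≤ A i := fun i => by exact_mod_cast hA1 i
  have h2 : ∑ x ∈ Vg p γ, ∏ i : Fin 6, (nb p (a i) (A i) (x i) : ℝ) ≤
      64 * ∑ x ∈ Vg p γ, ∏ i : Fin 6, cw p (a i) (2 * A i + 1) (x i) := by
    rw [mul_sum]
    refine sum_le_sum fun x _ => ?_
    calc ∏ i : Fin 6, (nb p (a i) (A i) (x i) : ℝ) ≤ ∏ i : Fin 6, (2 * cw p (a i) (2 * A i + 1) (x i)) :=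
          prod_le_prod (fun i _ => Nat.cast_nonneg _) (fun i _ => (t i).2.2.2.2 (x i))
      _ = _ := by
          rw [prod_mul_distrib, prod_const, card_univ, Fintype.card_fin]
          norm_num
  have h3 : ∏ i : Fin 6, cv p (a i) (2 * A i + 1) 0 ≤ ∏ i : Fin 6, (3 * (A i : ℝ) / p) := by
    refine prod_le_prod (fun i _ => (t i).1 0) (fun i _ => ?_)
    rw [(t i).2.2.1]
    refine div_le_div_of_nonneg_right ?_ hp.le
    have := hA0 i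
    linarith
  have h4 : ∏ i : Fin 6, cw p (a i) (2 * A i + 1) 0 ≤ (3 * K + 1) ^ 6 := by
    calc ∏ i : Fin 6, cw p (a i) (2 * A i + 1) 0 ≤ ∏ _i : Fin 6, (3 * K + 1) := by
          refine prod_le_prod (fun i _ => hcw i 0) (fun i _ => ?_)
          refine (t i).2.2.2.1.trans ?_
          have k1 : (2 * (A i : ℝ) + 1) / p ≤ 3 * K := by
            rw [div_le_iff₀ hp]
            have := hA0 i
            have := hAK i
            nlinarith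
          linarith
      _ = _ := by
          rw [prod_const, card_univ, Fintype.card_fin]
  have h5 : 0 ≤ ∏ i : Fin 6, cv p (a i) (2 * A i + 1) 0 := prod_nonneg fun i _ => (t i).1 0
  refine h2.trans (mul_le_mul_of_nonneg_left (h1.trans ?_) (by norm_num))
  refine add_le_add ?_ (mul_le_mul_of_nonneg_left h4 (by positivity))
  exact mul_le_mul h3 hV (Nat.cast_nonneg _) (h5.trans h3)

/-- MN. -/
theorem hMN (hW : StWB) (hP : StPOS) (hT : StWT) (hC : StCT) : StMN := by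
  intro K hK
  refine ⟨128 * (3645 + 20 * (3 * K + 1) ^ 6), by positivity, ?_⟩
  intro c a₁ a₂ H₁ H₂ hc h1 h12 hK2
  have : Fact c.Prime := ⟨hc⟩
  have hc0 : (0 : ℝ) < c := by exact_mod_cast hc.pos
  have h2 : 1 ≤ H₂ := h1.trans h12
  have hA1 : 1 ≤ ⌊H₁⌋₊ := Nat.le_floor (by simpa using h1)
  have hB1 : 1 ≤ ⌊H₂⌋₊ := Nat.le_floor (by simpa using h2)
  have hA2 : (⌊H₁⌋₊ : ℝ) ≤ H₁ := Nat.floor_le (by linarith)
  have hB2 : (⌊H₂⌋₊ : ℝ) ≤ H₂ := Nat.floor_le (by linarith)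
  have key : ∀ γ : ZMod c, γ ^ 2 = 1 →
      ∑ x ∈ Vg c γ, ∏ i : Fin 6, (nb c (if (i : ℕ) % 2 = 0 then (a₁ : ZMod c) else (a₂ : ZMod c))
        (if (i : ℕ) % 2 = 0 then ⌊H₁⌋₊ else ⌊H₂⌋₊) (x i) : ℝ) ≤
      64 * ((∏ i : Fin 6, (3 * ((if (i : ℕ) % 2 = 0 then ⌊H₁⌋₊ else ⌊H₂⌋₊ : ℕ) : ℝ) / c)) *
        (5 * (c : ℝ) ^ 3) + 20 * (c : ℝ) ^ 2 * (3 * K + 1) ^ 6) := by
    intro γ hγ
    refine one hW hP hT c γ hγ K hK (fun i : Fin 6 => if (i : ℕ) % 2 = 0 then (a₁ : ZMod c) else (a₂ : ZMod c))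
      ?_ (fun i : Fin 6 => if (i : ℕ) % 2 = 0 then ⌊H₁⌋₊ else ⌊H₂⌋₊) ?_ ?_
    · intro i
      split_ifs
      · exact a₁.ne_zero
      · exact a₂.ne_zero
    · intro i
      split_ifs
      · exact hA1
      · exact hB1
    · intro i
      split_ifs
      · linarith
      · linarith
  have hprod : ∏ i : Fin 6, (3 * ((if (i : ℕ) % 2 = 0 then ⌊H₁⌋₊ else ⌊H₂⌋₊ : ℕ) : ℝ) / c) ≤
      729 * ((H₁ * H₂) ^ 3 / (c : ℝ) ^ 6) := by
    have e : ∏ i : Fin 6, (3 * ((if (i : ℕ) % 2 = 0 then ⌊H₁⌋₊ else ⌊H₂⌋₊ : ℕ) : ℝ) / c) =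
        729 * (((⌊H₁⌋₊ : ℝ) * ⌊H₂⌋₊) ^ 3 / (c : ℝ) ^ 6) := by
      simp [Fin.prod_univ_succ]
      field_simp
      try ring
    rw [e]
    refine mul_le_mul_of_nonneg_left ?_ (by norm_num)
    refine div_le_div_of_nonneg_right ?_ (by positivity)
    exact pow_le_pow_left₀ (by positivity) (mul_le_mul hA2 hB2 (Nat.cast_nonneg _) (by linarith)) _
  have k1 := key 1 (one_pow 2)
  have k2 := key (-1) (by ring)
  have k3 := hC c a₁ a₂ H₁ H₂ h1 h2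
  have k4 := mul_le_mul_of_nonneg_right hprod (by positivity : (0 : ℝ) ≤ 5 * (c : ℝ) ^ 3)
  have e5 : 729 * ((H₁ * H₂) ^ 3 / (c : ℝ) ^ 6) * (5 * (c : ℝ) ^ 3) = 3645 * ((H₁ * H₂) ^ 3 / (c : ℝ) ^ 3) := by
    field_simp
    try ring
  rw [e5] at k4
  have hX : 0 ≤ (H₁ * H₂) ^ 3 / (c : ℝ) ^ 3 := by
    have : 0 ≤ H₁ * H₂ := by nlinarith
    positivity
  have hY : (0 : ℝ) ≤ (c : ℝ) ^ 2 := by positivity
  have hM : (0 : ℝ) ≤ (3 * K + 1) ^ 6 := by positivity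
  generalize (H₁ * H₂) ^ 3 / (c : ℝ) ^ 3 = X at *
  generalize (3 * K + 1) ^ 6 = M at *
  have m1 := mul_nonneg hM hX
  nlinarith

end Pool.Agent.Helper89.HY
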