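import Pool.Agent.Helper28.SP.St
import Pool.Agent.Helper56.SW.Final

/-!
# HY (MP_e188f1_nt): words modulo a prime, the range of large boxes

Statements of the modules, with proofs.  `p` is a prime, `e(x) = ad p x` the standard additive character of
`F = ZMod p`.  Goal: `N_6 ≤ C ((H₁ H₂)³ / p³ + p²)`, and from this (and from `SixLetters`) bounds for all `N_{2r}`.
-/

set_option autoImplicit false

noncomputable section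

namespace Pool.Agent.Helper89.HY

open Finset Matrix
open Pool.Agent.Helper56.SW (Tm Sm Nq N)

/-- the standard additive character of `ZMod p` -/
def ad (p : ℕ) [Fact p.Prime] (x : ZMod p) : ℂ := ZMod.stdAddChar x

/-- `∑_{u v = n} e(A u + B v)` -/
def KS (p : ℕ) [Fact p.Prime] (A B n : ZMod p) : ℂ :=
  ∑ u : ZMod p, ∑ v : ZMod p, if u * v = n then ad p (A * u + B * v) else 0

open Classical in
/-- the words of length six equal to `γ` -/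
def Vg (p : ℕ) [Fact p.Prime] (γ : ZMod p) : Finset (Fin 6 → ZMod p) :=
  univ.filter fun x => (List.ofFn fun i : Fin 6 => Tm (x i) * Sm p).prod =
    γ • (1 : Matrix (Fin 2) (Fin 2) (ZMod p))

/-- (KM, no hypotheses.) The second moment. PROOF. Let `E` be the set of the `c ≠ 0` with `1 + c = 0`, or with
`(m2, m4) ≠ (0, 0)` and `m2 + m4 / c = 0`, or with `(m3, m1) ≠ (0, 0)` and `m3 + m1 / c = 0`: at most three elements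
(`m2 c = - m4` has at most one solution `c ≠ 0` if `(m2, m4) ≠ (0, 0)`). Trivially `‖KS A B n‖ ≤ 2 p` (at most
`2 p` pairs `u v = n`; `n ≠ 0`: `u ≠ 0`, `v = n / u`; `n = 0`: `u = 0` or `v = 0`), so `E` contributes at most `12 p ^ 2`.
Let `c ∉ E`, `A = m2 + m4 / c`, `B = m3 + m1 / c`, `n = 1 + c ≠ 0`: `KS A B n = ∑_{u ≠ 0} e(A u + B n / u)`. `A` and `B` are not both `0` (if
`A = 0` then `m2 = m4 = 0`, if `B = 0` then `m3 = m1 = 0`). If exactly one of them is `0` then `KS A B n = -1` (sum of a nontrivial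
character over the `u ≠ 0`). These `c` contribute at most `p ≤ p ^ 2`. If `A, B ≠ 0` then (`t = A u`) `KS A B n = Kl(A B n)`, `Kl(y) = ∑_{t ≠ 0} e(t + y / t)`, with
`y = A B n ≠ 0`, that is `(m2 c + m4)(m3 c + m1)(1 + c) = y c ^ 2`. For a given `y ≠ 0` this polynomial equation of degree at most three in `c` is not trivial: its
coefficients are `m2 m3`, `m2 m3 + m2 m1 + m4 m3 - y`, `m2 m1 + m4 m3 + m4 m1`, `m4 m1`; if all vanish then `m2 m1 + m4 m3 = 0` and so `y = 0`. So each `y ≠ 0` occurs for at most three `c`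
and these `c` contribute at most `3 ∑_y ‖Kl(y)‖ ^ 2 = 3 ∑_{t, t'} e(t - t') ∑_y e(y (1 / t - 1 / t')) = 3 p (p - 1)`. Total at most `16 p ^ 2`. -/
def StKM : Prop := ∀ (p : ℕ) [Fact p.Prime] (m1 m2 m3 m4 : ZMod p), (m1 ≠ 0 ∨ m2 ≠ 0 ∨ m3 ≠ 0 ∨ m4 ≠ 0) →
  ∑ c ∈ univ.erase (0 : ZMod p), ‖KS p (m2 + m4 / c) (m3 + m1 / c) (1 + c)‖ ^ 2 ≤ 16 * (p : ℝ) ^ 2

/-- (PAR, no hypotheses.) The words of length six. PROOF. `Tm x * Sm = [[x, -1], [1, 0]]`. Write `x = (x1, ..., x6)` (`x1 = x 0` and so on). `M(x1) M(x2) M(x3) = [[x1 x2 x3 - x1 - x3, 1 - x1 x2], [x2 x3 - 1, - x2]]` and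
the relation is `M(x1) M(x2) M(x3) = γ (M(x4) M(x5) M(x6))⁻¹ = γ [[- x5, x4 x5 - 1], [1 - x5 x6, x4 x5 x6 - x4 - x6]]` (`γ ^ 2 = 1`), i.e. with `c = x2 x3 - 1`:
(1) `c x1 = x3 - γ x5`, (2) `1 - x1 x2 = γ (x4 x5 - 1)`, (3) `x5 x6 - 1 = - γ c`, (4) `c x4 = x2 - γ x6`. If `c ≠ 0` then (2) follows from (1), (3), (4)
(both sides have determinant one), so the part of `Vg p γ` with a given `c ≠ 0` is parametrised by `(x2, x3)` with `x2 x3 = 1 + c` and `(x5, x6)` with `x5 x6 = 1 - γ c`; `x1 = (x3 - γ x5) / c`, `x4 = (x2 - γ x6) / c`. As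
`c' = - γ c` has `1 / c' = - γ / c`, the sum over this part is the product of the two `KS` (coefficient of `x2`: `m2 + m4 / c`; of `x3`: `m3 + m1 / c`; of `x5`: `m5 + m1 / c'`; of `x6`: `m6 + m4 / c'`). The part with `c = 0` has at most `p ^ 2` elements:
`x3 ≠ 0`, `x2 = 1 / x3`, `x5 = γ x3 ≠ 0`, `x6 = γ x2`, and `x4 = (1 + γ (1 - x1 x2)) / x5`, so it is determined by `(x1, x3)`. -/
def StPAR : Prop := ∀ (p : ℕ) [Fact p.Prime] (γ : ZMod p), γ ^ 2 = 1 → ∀ m : Fin 6 → ZMod p,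
  ‖∑ x ∈ Vg p γ, ad p (∑ i, m i * x i) - ∑ c ∈ univ.erase (0 : ZMod p),
    KS p (m 1 + m 3 / c) (m 2 + m 0 / c) (1 + c) *
      KS p (m 4 + m 0 / (-γ * c)) (m 5 + m 3 / (-γ * c)) (1 + (-γ * c))‖ ≤ (p : ℝ) ^ 2

/-- (WB, assume `hK : StKM`, `hP : StPAR`.) PROOF. `‖KS‖ ≤ 2 p` (see KM), and PAR with `m = 0` gives `|Vg| ≤ p (2 p) ^ 2 + p ^ 2 ≤ 5 p ^ 3`. Let `m ≠ 0`; put `K1(c)`, `K2(c)` for the two factors in PAR, `c' = - γ c`.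
If `(m 0, m 1, m 2, m 3) ≠ 0` and `(m 0, m 3, m 4, m 5) ≠ 0`: Cauchy-Schwarz and KM twice (for `K2` substitute `c' = - γ c`, a bijection of the nonzero elements, and KM with `m2 := m 4`, `m4 := m 0`, `m3 := m 5`, `m1 := m 3`): at most `16 p ^ 2 + p ^ 2`.
If `m 0 = m 1 = m 2 = m 3 = 0` then `(m 4, m 5) ≠ 0` and `K1(c) = KS 0 0 (1 + c)` is `p - 1` for `c ≠ -1` and `2 p - 1` for `c = -1`, `K2(c) = KS (m 4) (m 5) (1 + c')`; `∑_{c' ∈ F} KS (m 4) (m 5) (1 + c') = ∑_{u, v} e(m4 u + m5 v) = 0`, so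
`∑_{c ≠ 0} K2(c) = - KS (m 4) (m 5) 1` and `‖∑ K1 K2‖ ≤ (p - 1) 2 p + p 2 p ≤ 4 p ^ 2`. If `m 0 = m 3 = m 4 = m 5 = 0` it is the same with the roles of `K1`, `K2` exchanged (`K2(c) = KS 0 0 (1 + c')` is `2 p - 1` iff `c' = -1`). -/
def StWB : Prop := ∀ (p : ℕ) [Fact p.Prime] (γ : ZMod p), γ ^ 2 = 1 →
  ((Vg p γ).card : ℝ) ≤ 5 * (p : ℝ) ^ 3 ∧
  ∀ m : Fin 6 → ZMod p, m ≠ 0 → ‖∑ x ∈ Vg p γ, ad p (∑ i, m i * x i)‖ ≤ 20 * (p : ℝ) ^ 2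

/-- (POS, no hypotheses.) Positivity. PROOF. `∑_x ∏ w i (x i) = ∑_x ∏_i ∑_m v i m e(m x_i) = ∑_m (∏ v i (m i)) ∑_x e(∑ m i x i)` (`Finset.prod_univ_sum`, `m` in `Fin 6 → ZMod p`). The term `m = 0` is `(∏ v i 0) |V|`, the others are at most
`B ∑_m ∏ v i (m i) = B ∏_i ∑_m v i m = B ∏_i w i 0`. -/
def StPOS : Prop := ∀ (p : ℕ) [Fact p.Prime] (V : Finset (Fin 6 → ZMod p)) (w v : Fin 6 → ZMod p → ℝ) (B : ℝ), 0 ≤ B →
  (∀ i m, 0 ≤ v i m) → (∀ i x, (w i x : ℂ) = ∑ m : ZMod p, (v i m : ℂ) * ad p (m * x)) →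
  (∀ m : Fin 6 → ZMod p, m ≠ 0 → ‖∑ x ∈ V, ad p (∑ i, m i * x i)‖ ≤ B) →
  ∑ x ∈ V, ∏ i, w i (x i) ≤ (∏ i, v i 0) * V.card + B * ∏ i, w i 0

open Classical in
/-- the weight: number of `j, j' < L` with `a (j - j') = x`, divided by `L` -/
def cw (p : ℕ) (a : ZMod p) (L : ℕ) (x : ZMod p) : ℝ :=
  (((range L ×ˢ range L).filter fun q : ℕ × ℕ => a * ((q.1 : ZMod p) - q.2) = x).card : ℝ) / L

/-- its Fourier transform -/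
def cv (p : ℕ) [Fact p.Prime] (a : ZMod p) (L : ℕ) (m : ZMod p) : ℝ :=
  ‖∑ j ∈ range L, ad p (m * a * j)‖ ^ 2 / (p * L)

open Classical in
/-- number of `|h| ≤ A` with `a h = x` -/
def nb (p : ℕ) (a : ZMod p) (A : ℕ) (x : ZMod p) : ℕ :=
  ((Icc (-(A : ℤ)) A).filter fun h : ℤ => a * (h : ZMod p) = x).card

/-- (WT, no hypotheses.) The weights, `L = 2 A + 1`. PROOF. `∑_m cv m e(m x) = (p L)⁻¹ ∑_{j, j'} ∑_m e(m (x - a (j - j')))` (write `‖z‖ ^ 2 = conj z * z`, `conj (e t) = e(- t)`; exchange the names of `j`, `j'`) and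
the inner sum is `p` or `0`. `cv 0 = L ^ 2 / (p L)`. `cw 0 = L⁻¹ #{j ≡ j' mod p}` (`a` is a unit), at most `L⁻¹ L (L / p + 1)`. A number `|h| ≤ A` is `j - j'` for at least `L - |h| ≥ A + 1 ≥ L / 2` pairs. -/
def StWT : Prop := ∀ (p : ℕ) [Fact p.Prime] (a : ZMod p) (A : ℕ), a ≠ 0 →
  (∀ m, 0 ≤ cv p a (2 * A + 1) m) ∧
  (∀ x, (cw p a (2 * A + 1) x : ℂ) = ∑ m : ZMod p, (cv p a (2 * A + 1) m : ℂ) * ad p (m * x)) ∧
  cv p a (2 * A + 1) 0 = (2 * (A : ℝ) + 1) / p ∧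
  cw p a (2 * A + 1) 0 ≤ (2 * (A : ℝ) + 1) / p + 1 ∧
  ∀ x, (nb p a A x : ℝ) ≤ 2 * cw p a (2 * A + 1) x

/-- (CT, no hypotheses.) From `Nq` to the sum over the words. PROOF. `γ ^ 2 = 1` means `γ = 1` or `γ = -1`. Map `h` to `x i = b_i h_i`; the number of the `h` with given `x` is the product of the `nb` (`|h| ≤ H` iff `h ∈ Icc (-⌊H⌋) ⌊H⌋`). -/
def StCT : Prop := ∀ (p : ℕ) [Fact p.Prime] (a₁ a₂ : (ZMod p)ˣ) (H₁ H₂ : ℝ), 1 ≤ H₁ → 1 ≤ H₂ →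
  (Nq 6 p a₁ a₂ H₁ H₂ : ℝ) ≤
    ∑ x ∈ Vg p 1, ∏ i : Fin 6, (nb p (if (i : ℕ) % 2 = 0 then (a₁ : ZMod p) else (a₂ : ZMod p))
      (if (i : ℕ) % 2 = 0 then ⌊H₁⌋₊ else ⌊H₂⌋₊) (x i) : ℝ) +
    ∑ x ∈ Vg p (-1), ∏ i : Fin 6, (nb p (if (i : ℕ) % 2 = 0 then (a₁ : ZMod p) else (a₂ : ZMod p))
      (if (i : ℕ) % 2 = 0 then ⌊H₁⌋₊ else ⌊H₂⌋₊) (x i) : ℝ)

/-- (MN, assume `hW : StWB`, `hP : StPOS`, `hT : StWT`, `hC : StCT`.) -/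
def StMN : Prop := ∀ K : ℝ, 1 ≤ K → ∃ C : ℝ, 0 < C ∧ ∀ (c : ℕ) (a₁ a₂ : (ZMod c)ˣ) (H₁ H₂ : ℝ), c.Prime →
  1 ≤ H₁ → H₁ ≤ H₂ → H₂ ≤ K * c →
  (Nq 6 c a₁ a₂ H₁ H₂ : ℝ) ≤ C * ((H₁ * H₂) ^ 3 / (c : ℝ) ^ 3 + (c : ℝ) ^ 2)

/-- (HM, no hypotheses: all the modules of `Pool.Agent.Helper28.SP` may be used, import `Pool.Agent.Helper28.SP.Asm`.) Higher moments. PROOF. `StLEVEL` (see `Pool/Agent/Helper28/SP/Final.lean` and `Asm.lean` for how to obtain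
`StLEVEL`, `StSYM`, `StNPW`, `StWPN`, `StSURJ`) with `k = 3`, `j = r`, `s = sP A B`, `w = wP a b`, `mu = ((2 A + 1) (2 B + 1)) ^ 2`, `C1 = D`: the divisors of `p` are `1` and `p`. `e = 1`: `W ≤ (card sP) ^ 3 = mu ^ 3` (or by StWPN and the trivial bound for `N`).
`e = p`: by StWPN `W p 3 1 ≤ ((2 A + 1)(2 B + 1)) ^ 3 N p a b 3 (2 A) (2 B)`, and `(A B) ^ 3 ≤ ((2 A + 1)(2 B + 1)) ^ 3`, so `W p 3 1 p ^ 2 ≤ D mu ^ 3 (1 / p + t)`. So `W p r g0 ≤ (4 τ(p) ^ 2) ^ (r + 1) D ^ (r/3) mu ^ r / p ^ 3 (1 + p t ^ (r/3))`, `τ p = 2`; then StNPW (with `sc` from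
StSURJ), `(Γ p).card ≤ 2 τ p = 4`, `mu / ((A + 1)(B + 1)) ≤ 64 A B`, `D ^ (r/3) ≤ D ^ r`. Model: `Pool/Agent/Helper28/SP/M_MP.lean`. -/
def StHM : Prop := ∀ r : ℕ, 3 ≤ r → ∃ C : ℝ, 0 < C ∧ ∀ (p : ℕ) (a b : ℤ) (A B : ℕ) (D t : ℝ), p.Prime →
  IsCoprime a (p : ℤ) → IsCoprime b (p : ℤ) → 1 ≤ A → A ≤ B → 1 ≤ D → 0 ≤ t →
  (N p a b 3 (2 * A) (2 * B) : ℝ) ≤ D * (((A : ℝ) * B) ^ 3 / (p : ℝ) ^ 3 * (1 + p * t)) →
  (N p a b r A B : ℝ) ≤ C * D ^ r * (((A : ℝ) * B) ^ r / (p : ℝ) ^ 3 * (1 + p * t ^ ((r : ℝ) / 3)))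

end Pool.Agent.Helper89.HY
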