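import Pool.Agent.Helper89.HY.St

/-!
# HY2 (MP_e188f1_nt): large boxes, squarefree moduli

Statements of the modules, with proofs. Goal: for squarefree `c` and all `r ≥ 3`:
`N_{2r} ≤ C c^ε ((H₁ H₂)^r / c³ + c^((4 r - 6) / 3))`.
-/

set_option autoImplicit false

noncomputable section

namespace Pool.Agent.Helper89.HY

open Finset Matrix
open Pool.Agent.Helper56.SW (Tm Sm Nq N τ)

open Classical in
/-- the words of length six equal to `γ`, any modulus -/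
def Vn (n : ℕ) [NeZero n] (γ : ZMod n) : Finset (Fin 6 → ZMod n) :=
  univ.filter fun x => (List.ofFn fun i : Fin 6 => Tm (x i) * Sm n).prod =
    γ • (1 : Matrix (Fin 2) (Fin 2) (ZMod n))

open Classical in
/-- the size of the annihilator of all `m i` -/
def An (n : ℕ) [NeZero n] (m : Fin 6 → ZMod n) : ℕ := (univ.filter fun b : ZMod n => ∀ i, b * m i = 0).card

/-- the bound for the exponential sums modulo `n` -/
def Bd (n : ℕ) [NeZero n] : Prop := ∀ ψ : AddChar (ZMod n) ℂ, ψ.IsPrimitive → ∀ γ : ZMod n, γ ^ 2 = 1 →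
  ∀ m : Fin 6 → ZMod n, ‖∑ x ∈ Vn n γ, ψ (∑ i, m i * x i)‖ ≤ τ n ^ 5 * (n : ℝ) ^ 2 * An n m

/-- (LPR, assume `hW : StWB`.) Primes. PROOF. `τ p = 2`, `An p 0 = p`, `An p m = 1` if `m ≠ 0`. `Vn p γ = Vg p γ` (unfold). A primitive `ψ` is `x ↦ ad p (u x)`, `u ≠ 0` (`ψ 1` is a `p`-th root of unity `e(u / p)`; `u ≠ 0` as `ψ` is not trivial), so the sum is
the one of WB with `u m` in place of `m`: at most `20 p ^ 2` if `m ≠ 0`; for `m = 0` it is `|Vg| ≤ 5 p ^ 3`. -/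
def StLPR : Prop := ∀ (p : ℕ) [Fact p.Prime], Bd p

/-- (CRT, no hypotheses.) Coprime products. PROOF. `φ = ZMod.chineseRemainder : ZMod (n * k) ≃+* ZMod n × ZMod k`. `ψ (φ.symm (x, y)) = ψ₁ x * ψ₂ y` with `ψ₁ x = ψ (φ.symm (x, 0))`, `ψ₂ y = ψ (φ.symm (0, y))`, both primitive: if `a ≠ 0` and `ψ₁ (a x) = 1` for all `x`, then
`ψ (φ.symm (a, 0) * z) = 1` for all `z`. The word condition, `γ ^ 2 = 1` and `∑ m i x i` split into their components (apply the two projections to the matrix identity), so the sum is the product of the two sums; `τ` is multiplicative, and `An` is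
the product of the two `An` (`b ↦ φ b`). -/
def StCRT : Prop := ∀ (n k : ℕ) [NeZero n] [NeZero k] [NeZero (n * k)], Nat.Coprime n k → Bd n → Bd k → Bd (n * k)

/-- (BDN, assume `h1 : StLPR`, `h2 : StCRT`.) PROOF. Induction (`Nat.recOnPosPrimePosCoprime` or over the prime factors); `n = 1`: `ZMod 1` has one element, the sum has at most one term of absolute value one, `τ 1 = 1`, `An = 1`. -/
def StBDN : Prop := ∀ (n : ℕ) [NeZero n], Squarefree n → Bd n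

/-- the Fourier transform of the weight modulo `n` -/
def cn (n : ℕ) [NeZero n] (a : ZMod n) (L : ℕ) (m : ZMod n) : ℝ :=
  ‖∑ j ∈ range L, (ZMod.stdAddChar (m * a * (j : ZMod n)) : ℂ)‖ ^ 2 / (n * L)

open Classical in
/-- (WTN, no hypotheses.) The weights modulo `n`, `L = 2 A + 1`. PROOF. The first, second and fourth claim are as in `Pool/Agent/Helper31/HY/M_WT.lean` (`StWT`; only primitivity of the character and that `a` is a unit is used). Third claim: by the second one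
`∑_{m : b m = 0} cn m = n⁻¹ ∑_x cw x ∑_{m : b m = 0} e(- m x)`. (This inverts the second claim.) The `m` with `b m = 0` are a subgroup of order `g = gcd (b, n)`, and the inner sum is `g` if `x ∈ b R`, otherwise `0`. Put differently: with `e = n / g` the `m` are
`e k`, `k < g`, and `∑_{k < g} e(e k a (j - j') / n)` is `g` if `g ∣ j - j'` and `0` otherwise, so directly `∑_{m : b m = 0} cn m = (n L)⁻¹ g #{j, j' < L : g ∣ j - j'} ≤ (n L)⁻¹ g L (L / g + 1) = (L + g) / n`. -/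
def StWTN : Prop := ∀ (n : ℕ) [NeZero n] (a : (ZMod n)ˣ) (A : ℕ),
  (∀ m, 0 ≤ cn n a (2 * A + 1) m) ∧
  (∀ x, (cw n a (2 * A + 1) x : ℂ) = ∑ m : ZMod n, (cn n a (2 * A + 1) m : ℂ) * ZMod.stdAddChar (m * x)) ∧
  (∀ b : ZMod n, ∑ m ∈ univ.filter (fun m : ZMod n => b * m = 0), cn n a (2 * A + 1) m ≤
    (2 * (A : ℝ) + 1 + Nat.gcd b.val n) / n) ∧
  ∀ x, (nb n a A x : ℝ) ≤ 2 * cw n a (2 * A + 1) x

open Classical in
/-- (PON, no hypotheses.) Positivity. PROOF. As `Pool/Agent/Helper47/HY/M_POS.lean`: `∑_x ∏ w i (x i) = ∑_m (∏ v i (m i)) ∑_x e(∑ m i x i) ≤ B ∑_m (∏ v i (m i)) An n m`, `An n m = ∑_b [∀ i, b m i = 0]`, and for each `b` the sum over `m` is the product of the six sums. -/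
def StPON : Prop := ∀ (n : ℕ) [NeZero n] (V : Finset (Fin 6 → ZMod n)) (w v : Fin 6 → ZMod n → ℝ) (B : ℝ), 0 ≤ B →
  (∀ i m, 0 ≤ v i m) → (∀ i x, (w i x : ℂ) = ∑ m : ZMod n, (v i m : ℂ) * ZMod.stdAddChar (m * x)) →
  (∀ m : Fin 6 → ZMod n, ‖∑ x ∈ V, (ZMod.stdAddChar (∑ i, m i * x i) : ℂ)‖ ≤ B * An n m) →
  ∑ x ∈ V, ∏ i, w i (x i) ≤ B * ∑ b : ZMod n, ∏ i, ∑ m ∈ univ.filter (fun m : ZMod n => b * m = 0), v i m

/-- (CTN, no hypotheses.) From `Nq` to the sum over the words, any modulus. PROOF. As `Pool/Agent/Helper69/HY/M_CT.lean`; the number of the `γ` with `γ ^ 2 = 1` is at most `2 τ n` (`Pool.Agent.Helper56.SW.stSqrt`, `Γ n` has the same number of elements by `ZMod.val`). -/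
def StCTN : Prop := ∀ (n : ℕ) [NeZero n] (a₁ a₂ : (ZMod n)ˣ) (H₁ H₂ X : ℝ), 1 ≤ H₁ → 1 ≤ H₂ →
  (∀ γ : ZMod n, γ ^ 2 = 1 →
    ∑ x ∈ Vn n γ, ∏ i : Fin 6, (nb n (if (i : ℕ) % 2 = 0 then (a₁ : ZMod n) else (a₂ : ZMod n))
      (if (i : ℕ) % 2 = 0 then ⌊H₁⌋₊ else ⌊H₂⌋₊) (x i) : ℝ) ≤ X) →
  (Nq 6 n a₁ a₂ H₁ H₂ : ℝ) ≤ 2 * τ n * X

/-- (SMN, no hypotheses.) A sum over `b`. PROOF. At most `n / g` of the `b` have `gcd (b, n) = g` (they are multiples of `g`), so the sum is at most `∑_{g ∣ n} n⁻³ g⁻¹ (L₁ + g) ^ 3 (L₂ + g) ^ 3`, and each term is at most `64 ((L₁ L₂) ^ 3 / n ^ 3 + M ^ 3 n ^ 2)`: `(L_i + g) ≤ 2 max (L_i, g)`;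
`g ≤ L₁`: `(L₁ L₂) ^ 3 / (g n ^ 3)`; `L₁ < g ≤ L₂`: `g ^ 2 L₂ ^ 3 / n ^ 3 ≤ M ^ 3 n ^ 2` (`g ≤ n`, `L₂ ≤ M n`); `L₂ < g`: `g ^ 5 / n ^ 3 ≤ n ^ 2`. -/
def StSMN : Prop := ∀ (n : ℕ) [NeZero n] (L₁ L₂ M : ℝ), 1 ≤ L₁ → L₁ ≤ L₂ → 1 ≤ M → L₂ ≤ M * n →
  (n : ℝ) ^ 2 * ∑ b : ZMod n, ((L₁ + Nat.gcd b.val n) / n) ^ 3 * ((L₂ + Nat.gcd b.val n) / n) ^ 3 ≤
    64 * τ n * ((L₁ * L₂) ^ 3 / (n : ℝ) ^ 3 + M ^ 3 * (n : ℝ) ^ 2)

/-- (HMN, no hypotheses: all the modules of `Pool.Agent.Helper28.SP` may be used.) Higher moments, any modulus. PROOF. As `Pool/Agent/Helper56/HY/M_HM.lean` and `Pool/Agent/Helper28/SP/M_MP.lean`: `StLEVEL` with `k = 3`, `j = r`, the family `sP`, `mu = ((2 A + 1) (2 B + 1)) ^ 2`.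
For `e ∣ n`, with `A' = min (2 A) e`, `B' = min (2 B) e`: StWPN, StFOLD and the hypothesis give `W e 3 1 ≤ ((2 A + 1)(2 B + 1)) ^ 3 (6 A / A') ^ 3 (6 B / B') ^ 3 D ((A' B') ^ 3 / e ^ 3 + e ^ 2)`, so
`W e 3 1 e ^ 2 ≤ 6 ^ 6 D mu ^ 3 (1 / e + e ^ 4 / (A' B') ^ 3)`. `e ≤ 2 A`: `e ^ 4 / (A' B') ^ 3 = e ^ (-2) ≤ 1 / e`. `2 A < e ≤ 2 B`: it is `e / (2 A) ^ 3 ≤ n / A ^ 3 ≤ K ^ 3 n ^ 4 / (A B) ^ 3`. `2 B < e`: at most `n ^ 4 / (A B) ^ 3`. So LEVEL applies with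
`C1 = 2 * 6 ^ 6 D`, `t = K ^ 3 n ^ 4 / (A B) ^ 3`; and `(A B) ^ r / n ^ 3 * n t ^ (r/3) = K ^ r n ^ ((4 r - 6) / 3)`. Then StNPW (with `sc` from StSURJ), `(Γ n).card ≤ 2 τ n`. -/
def StHMN : Prop := ∀ (r : ℕ) (K : ℝ), 3 ≤ r → 1 ≤ K → ∃ C : ℝ, 0 < C ∧ ∀ (n : ℕ) (a b : ℤ) (A B : ℕ) (D : ℝ), 1 ≤ n →
  IsCoprime a (n : ℤ) → IsCoprime b (n : ℤ) → 1 ≤ A → A ≤ B → (B : ℝ) ≤ K * n → 1 ≤ D →
  (∀ e ∈ n.divisors, ∀ A' B' : ℕ, 1 ≤ A' → A' ≤ B' → B' ≤ e →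
    (N e a b 3 A' B' : ℝ) ≤ D * (((A' : ℝ) * B') ^ 3 / (e : ℝ) ^ 3 + (e : ℝ) ^ 2)) →
  (N n a b r A B : ℝ) ≤ C * τ n ^ (2 * r + 3) * D ^ r *
    (((A : ℝ) * B) ^ r / (n : ℝ) ^ 3 + (n : ℝ) ^ ((4 * (r : ℝ) - 6) / 3))

end Pool.Agent.Helper89.HY
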