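import Pool.Agent.Helper89.HY.St2

/-!
# HY3 (MP_e188f1_nt): monotonicity of the normalised number of six-letter words in the box
-/

set_option autoImplicit false

noncomputable section

namespace Pool.Agent.Helper89.HY

open Finset Matrix
open Pool.Agent.Helper56.SW (Tm Sm Nq N τ)
open Pool.Agent.Helper28.SP (SG Uu Ll zP sP wP W)

open Classical in
/-- number of the `i ∈ s ^ 6` with `z₀⁻¹ g₀ z₁ g₁ z₂⁻¹ g₂ z₃ g₃ z₄⁻¹ g₄ z₅ g₅ = 1`, `z_j = z (i j)` -/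
def FF {G ι : Type} [Group G] (s : Finset ι) (z : ι → G) (g : Fin 6 → G) : ℕ :=
  ((Fintype.piFinset fun _ : Fin 6 => s).filter fun i : Fin 6 → ι =>
    (z (i 0))⁻¹ * g 0 * z (i 1) * g 1 * (z (i 2))⁻¹ * g 2 * z (i 3) * g 3 * (z (i 4))⁻¹ * g 4 * z (i 5) * g 5 = 1).card

/-- (CHB, no hypotheses.) The chessboard estimate. PROOF. Write `F(g₀,...,g₅)`. It is invariant under the cyclic shift by two places. Let `K_{a,b}(x) = #{(i, j, k) : z_i⁻¹ a z_j b z_k⁻¹ = x}` and `K'_{a,b}(x) = #{(i, j, k) : z_i a z_j⁻¹ b z_k = x}`. Splitting the equation into two halves,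
`F(g₀,...,g₅) = ∑_x K_{g₀,g₁}(x) K'_{g₃,g₄}(g₂⁻¹ x⁻¹ g₅⁻¹)`, and Cauchy-Schwarz gives `F(g₀,...,g₅)² ≤ (∑_x K_{g₀,g₁}(x)²)(∑_x K'_{g₃,g₄}(x)²)`. Here `∑_x K_{a,b}(x)² = #{z_i⁻¹ a z_j b z_k⁻¹ = z_i'⁻¹ a z_j' b z_k'⁻¹} = F(a, b, 1, b⁻¹, a⁻¹, 1)` and
`∑_x K'_{a,b}(x)²` is up to a cyclic shift the same with the roles of `z`, `z⁻¹` exchanged: it equals `F(1, a, b, 1, b⁻¹, a⁻¹)` (place `a` after `z`, i.e. in the odd places). The same with the cut shifted by one place (`K'` first): `F(g₀,...,g₅)² ≤ (∑ K'_{g₁,g₂}²)(∑ K_{g₄,g₅}²)`, and by shifts by two.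
Let `M` be the maximum of `F` (bounded by `|s| ^ 6`; a maximum of a bounded set of natural numbers). So a cut keeps two neighbouring values `(x, y)` and produces the configuration `(x, y, 1, y⁻¹, x⁻¹, 1)` (cyclically, starting at the place of `x`), once for `(x, y)` and once for the opposite pair.
Step 1: `M² ≤ M F'`, so every value is at most the maximum `M₁` of the configurations `C₁(x, y) = (x, y, 1, y⁻¹, x⁻¹, 1)`. Step 2: cut `C₁` so that the kept pairs are `(y, 1)` (places 2, 3) and `(x⁻¹, 1)` (places 5, 6): both new configurations are of the form `C₂(u) = (u, 1, 1, 1, u⁻¹, 1)`, so `M₁ ≤ M₂ = max F(C₂)`.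
Step 3: cut `C₂(u)` so that the kept pairs are `(1, 1)` (places 3, 4) and `(1, u)` (places 6, 1): `F(C₂(u))² ≤ F(1,...,1) M`. So `M² ≤ F(1,...,1) M`, `M ≤ F(1,...,1)`. -/
def StCHB : Prop := ∀ (G ι : Type) [Group G] (s : Finset ι) (z : ι → G) (g : Fin 6 → G), FF s z g ≤ FF s z (fun _ => 1)

/-- (F1W, no hypotheses; `StWPN` of `Helper28.SP` is `Pool.Agent.Helper28.SP.NPW.thm'`.) The untranslated count. PROOF. `z (h, k) = red c (zP a b (h, k))`, `s = range (2 A + 1) ×ˢ range (2 B + 1)`. `FF s z 1` is the number of the six tuples with `z₀⁻¹ z₁ z₂⁻¹ z₃ z₄⁻¹ z₅ = 1`, and `W (sP A B) (wP a b) c 3 1` is the same number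
(unfold `W`, `cnt` three times; `wP a b (i, j) = (zP i)⁻¹ zP j`, `sP A B = s ×ˢ s`). StWPN gives the claim. -/
def StF1W : Prop := ∀ (c : ℕ) (a b : ℤ) (A B : ℕ), 1 ≤ c →
  (FF (range (2 * A + 1) ×ˢ range (2 * B + 1))
    (fun i : ℕ × ℕ => (Pool.Agent.Helper28.SP.red c (zP a b i) : SG c)) (fun _ => 1) : ℝ) ≤
  ((2 * (A : ℝ) + 1) * (2 * B + 1)) ^ 3 * (N c a b 3 (2 * A) (2 * B) : ℝ)

/-- (TRN, no hypotheses.) Translates. PROOF. `z`, `s` as in F1W with `B'` in place of `B`. Let `T` be a set of at most `B / B' + 1 ≤ 2 B / B'` integers `t` such that the intervals `[t - B', t + B']` cover `[-B, B]`. A list counted in `N c a b 3 A B` is a relation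
`U(a h₁) L(b κ₁) U(a h₂) L(b κ₂) U(a h₃) L(b κ₃) = γ` modulo `c`, `γ ∈ Γ c` (in the list of pairs the head is the LAST factor; see `Pool.Agent.Helper56.SW.M_Tr_rel_iff` and the proof of `StNPW` in `Pool/Agent/Helper28/SP/M_NPW.lean`), `|h_i| ≤ A`, `|κ_i| ≤ B`. Choose `t_i ∈ T` with `|κ_i - t_i| ≤ B'`.
`h_i` is `η' - η` for at least `A + 1` pairs `η, η' ≤ 2 A` and `κ_i - t_i` is `k - k'` for at least `B' + 1` pairs `k, k' ≤ 2 B'`. As `z(η, k)⁻¹ z(η', k') = L(- b k) U(a (η' - η)) L(b k')` and `z(η', k) L(b t) z(η, k')⁻¹ = U(a η') L(b (k + t - k')) U(- a η)`, each relation gives at least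
`((A + 1)(B' + 1)) ^ 3` tuples counted in `FF s z g` with `g = (1, L(b t₁), 1, L(b t₂), 1, L(b t₃) γ⁻¹)` (conjugate the relation by the first `L(b k)`; `γ` is central; `γ` as a matrix of determinant one: `γ ^ 2 = 1`). Number of `g`: `|T| ^ 3 |Γ c| ≤ (2 B / B') ^ 3 2 τ c` (`stSqrt`). So
`((A + 1)(B' + 1)) ^ 3 N c a b 3 A B ≤ (2 B / B') ^ 3 2 τ c X`. -/
def StTRN : Prop := ∀ (c : ℕ) (a b : ℤ) (A B B' : ℕ) (X : ℝ), 1 ≤ c → 1 ≤ A → 1 ≤ B' → B' ≤ B → 0 ≤ X →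
  (∀ g : Fin 6 → SG c, (FF (range (2 * A + 1) ×ˢ range (2 * B' + 1))
    (fun i : ℕ × ℕ => (Pool.Agent.Helper28.SP.red c (zP a b i) : SG c)) g : ℝ) ≤ X) →
  (N c a b 3 A B : ℝ) * (((A : ℝ) + 1) * ((B' : ℝ) + 1)) ^ 3 ≤ (2 * (B : ℝ) / B') ^ 3 * (2 * τ c) * X

end Pool.Agent.Helper89.HY
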